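import Pool.Agent.Work.MP_2738db_nt_Y.Interface

set_option autoImplicit false

namespace Pool.Agent.Work.MP_2738db_nt_Y.helper16

open Finset

/-- from the logarithmic gap to the power form -/
lemma pow_form {M t : ℕ} {c : ℝ} (hM : 1 ≤ M) (ht : 1 ≤ t)
    (h : Real.log M - Real.log t ≤ c * Real.log M) : (M : ℝ) ^ (1 - c) ≤ (t : ℝ) := by
  have hM0 : (0 : ℝ) < M := by exact_mod_cast hM
  have ht0 : (0 : ℝ) < t := by exact_mod_cast ht
  rw [Real.rpow_def_of_pos hM0]
  calc Real.exp (Real.log M * (1 - c)) ≤ Real.exp (Real.log t) := by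
        apply Real.exp_le_exp.mpr
        linarith
    _ = t := Real.exp_log ht0

/-- the Fermat case -/
lemma fermat_case {X Y Z p : ℕ} (hp : 1 ≤ p) (hX : 1 ≤ X) (hY : 1 ≤ Y) (h : X ^ p + Y ^ p = Z ^ p) :
    Z ^ (p - 1) ≤ X ^ p := by
  have hYZ : Y < Z := by
    by_contra hc
    rw [not_lt] at hc
    have := Nat.pow_le_pow_left hc p
    have h1 : 1 ≤ X ^ p := Nat.one_le_pow _ _ hX
    omega
  obtain ⟨W, rfl⟩ : ∃ W, Z = W + 1 := ⟨Z - 1, by omega⟩
  have h1 : Y ^ p ≤ W ^ p := Nat.pow_le_pow_left (by omega) p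
  obtain ⟨r, rfl⟩ : ∃ r, p = r + 1 := ⟨p - 1, by omega⟩
  simp only [Nat.add_sub_cancel]
  have h2 : W ^ (r + 1) ≤ W * (W + 1) ^ r := by
    rw [pow_succ, mul_comm]
    exact Nat.mul_le_mul_left _ (Nat.pow_le_pow_left (by omega) r)
  have h3 : (W + 1) ^ (r + 1) = W * (W + 1) ^ r + (W + 1) ^ r := by ring
  omega

lemma log3_ge_one {P : ℕ} (hP : 3 ≤ P) : 1 ≤ Real.log P := by
  rw [Real.le_log_iff_exp_le (by positivity)]
  have h1 : (3 : ℝ) ≤ P := by exact_mod_cast hP
  linarith [Real.exp_one_lt_d9]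

/-- `(log P)^3 / P ≤ (log P)^8 / √P` -/
lemma comp1 {P : ℕ} (hP : 3 ≤ P) :
    Real.log P ^ 3 / P ≤ Real.log P ^ 8 / Real.sqrt P := by
  have h1 := log3_ge_one hP
  have hP1 : (1 : ℝ) ≤ P := by exact_mod_cast (by omega : 1 ≤ P)
  have h2 : Real.sqrt P ≤ P := by
    rw [Real.sqrt_le_left (by linarith)]
    nlinarith
  have h3 : 0 < Real.sqrt P := Real.sqrt_pos.mpr (by linarith)
  apply div_le_div₀ (by positivity) (pow_le_pow_right₀ h1 (by norm_num)) h3 h2

/-- combination of the two bounds -/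
lemma combine {C₂ C₃ D LM : ℝ} {P Q : ℕ} (hP : 3 ≤ P) (hQ : 1 ≤ Q) (h2 : 1 ≤ C₂) (h3 : 1 ≤ C₃)
    (hLM : 0 ≤ LM) (hD : D ≤ LM)
    (ha : D ≤ C₂ * (Q * Real.log P ^ 3 / P) * LM)
    (hb : C₃ * (3 * Real.log P) ^ 10 ≤ Q → D ≤ C₃ * (Real.log P ^ 13 / Q) * LM) :
    D ≤ (C₂ + 3 ^ 10 * C₃) * (Real.log P ^ 8 / Real.sqrt P) * LM := by
  have hl := log3_ge_one hP
  set l := Real.log P with hldef
  have hP0 : (0 : ℝ) < P := by exact_mod_cast (by omega : 0 < P)
  have hQ0 : (0 : ℝ) < Q := by exact_mod_cast (by omega : 0 < Q)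
  set s := Real.sqrt P with hs
  have hs0 : 0 < s := Real.sqrt_pos.mpr hP0
  have hss : s * s = P := Real.mul_self_sqrt hP0.le
  have hl0 : 0 < l := by linarith
  have hr0 : 0 ≤ l ^ 8 / s := by positivity
  have hadd : ∀ c : ℝ, c ≤ C₂ + 3 ^ 10 * C₃ → D ≤ c * (l ^ 8 / s) * LM →
      D ≤ (C₂ + 3 ^ 10 * C₃) * (l ^ 8 / s) * LM := by
    intro c hc h
    refine h.trans ?_
    apply mul_le_mul_of_nonneg_right _ hLM
    exact mul_le_mul_of_nonneg_right hc hr0
  by_cases hQs : (Q : ℝ) ≤ s * l ^ 5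
  · apply hadd C₂ (by nlinarith)
    refine ha.trans ?_
    apply mul_le_mul_of_nonneg_right _ hLM
    apply mul_le_mul_of_nonneg_left _ (by linarith)
    rw [← hss, div_le_div_iff₀ (by positivity) hs0]
    calc (Q : ℝ) * l ^ 3 * s ≤ (s * l ^ 5) * l ^ 3 * s := by
          apply mul_le_mul_of_nonneg_right _ hs0.le
          exact mul_le_mul_of_nonneg_right hQs (by positivity)
      _ = l ^ 8 * (s * s) := by ring
  · rw [not_le] at hQs
    by_cases hc : C₃ * (3 * l) ^ 10 ≤ Q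
    · apply hadd C₃ (by nlinarith)
      refine (hb hc).trans ?_
      apply mul_le_mul_of_nonneg_right _ hLM
      apply mul_le_mul_of_nonneg_left _ (by linarith)
      rw [div_le_div_iff₀ hQ0 hs0]
      calc l ^ 13 * s = l ^ 8 * (s * l ^ 5) := by ring
        _ ≤ l ^ 8 * Q := by
          apply mul_le_mul_of_nonneg_left hQs.le (by positivity)
    · rw [not_le] at hc
      apply hadd (3 ^ 10 * C₃) (by linarith)
      have h5 : s ≤ 3 ^ 10 * C₃ * l ^ 8 := by
        have h6 : s * l ^ 5 ≤ (3 ^ 10 * C₃ * l ^ 5) * l ^ 5 := by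
          calc s * l ^ 5 ≤ C₃ * (3 * l) ^ 10 := by linarith
            _ = (3 ^ 10 * C₃ * l ^ 5) * l ^ 5 := by ring
        have h7 : s ≤ 3 ^ 10 * C₃ * l ^ 5 := le_of_mul_le_mul_right h6 (by positivity)
        refine h7.trans ?_
        apply mul_le_mul_of_nonneg_left _ (by positivity)
        exact pow_le_pow_right₀ hl (by norm_num)
      have h8 : 1 ≤ 3 ^ 10 * C₃ * (l ^ 8 / s) := by
        rw [← mul_div_assoc, le_div_iff₀ hs0]
        linarith
      calc D ≤ LM := hD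
        _ = 1 * LM := (one_mul _).symm
        _ ≤ _ := mul_le_mul_of_nonneg_right h8 hLM

lemma log_pq_le {p q : ℕ} (hp : 3 ≤ p) (hq : 3 ≤ q) :
    1 + Real.log (p * q) ≤ 3 * Real.log ((max p q : ℕ) : ℝ) := by
  have hp0 : (0 : ℝ) < p := by exact_mod_cast (by omega : 0 < p)
  have hq0 : (0 : ℝ) < q := by exact_mod_cast (by omega : 0 < q)
  have h1 := log3_ge_one (P := max p q) (by omega)
  have h2 : Real.log p ≤ Real.log ((max p q : ℕ) : ℝ) :=
    Real.log_le_log hp0 (by exact_mod_cast le_max_left _ _)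
  have h3 : Real.log q ≤ Real.log ((max p q : ℕ) : ℝ) :=
    Real.log_le_log hq0 (by exact_mod_cast le_max_right _ _)
  rw [Real.log_mul hp0.ne' hq0.ne']
  linarith

/-- the case of `z ^ (p q)` smallest -/
lemma caseA (h2 : Stmt_Gap2) (h3 : Stmt_Stb) : ∃ C : ℝ, 1 ≤ C ∧ ∀ p q x y z : ℕ, p.Prime →
    q.Prime → p ≠ q → 3 ≤ p → 3 ≤ q → 1 ≤ x → 1 ≤ y → 1 ≤ z → Nat.Coprime x z →
    Nat.Coprime y z → z ^ (p * q) ≤ y ^ q → y ^ q + z ^ (p * q) = x ^ p →
    p * Real.log x - p * q * Real.log z ≤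
      C * (Real.log ((max p q : ℕ) : ℝ) ^ 8 / Real.sqrt ((max p q : ℕ) : ℝ)) * (p * Real.log x) := by
  obtain ⟨C₂, hC2, g2⟩ := h2
  obtain ⟨C₃, hC3, g3⟩ := h3
  refine ⟨C₂ + 3 ^ 10 * C₃, by linarith, ?_⟩
  intro p q x y z hp hq hpq hp3 hq3 hx hy hz hxz hyz hzy heq
  have hx0 : (0 : ℝ) < x := by exact_mod_cast hx
  have hz0 : (0 : ℝ) < z := by exact_mod_cast hz
  have hlx : 0 ≤ Real.log x := Real.log_nonneg (by exact_mod_cast hx)
  have hlz : 0 ≤ Real.log z := Real.log_nonneg (by exact_mod_cast hz)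
  have hyq1 : 1 ≤ y ^ q := Nat.one_le_pow _ _ hy
  have hz1 : z ^ (p * q) = (z ^ q) ^ p := by rw [← pow_mul, mul_comm]
  have hz2 : z ^ (p * q) = (z ^ p) ^ q := by rw [← pow_mul]
  apply combine (Q := min p q) (by omega) (by have := hp.one_lt; have := hq.one_lt; omega)
    hC2 hC3 (by positivity)
  · have : 0 ≤ (p : ℝ) * q * Real.log z := by positivity
    linarith
  · rcases lt_or_gt_of_ne hpq with hlt | hlt
    · have hmax : max p q = q := by omega
      have hmin : min p q = p := by omega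
      rw [hmax, hmin]
      have hBA : z ^ q < x := by
        by_contra hc
        rw [not_lt] at hc
        have h5 := Nat.pow_le_pow_left hc p
        rw [hz1] at heq
        omega
      have h6 := g2 p q x (z ^ q) y (Real.log ((x : ℝ) ^ p)) hp hp3 (by omega)
        (Nat.one_le_pow _ _ hz) hBA (Nat.Coprime.pow_right _ hxz) hy
        (Or.inr ⟨by rw [← hz1, add_comm]; exact heq, rfl⟩)
      rw [Real.log_pow] at h6
      push_cast at h6
      rw [Real.log_pow] at h6
      calc (p : ℝ) * Real.log x - p * q * Real.log z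
          = p * Real.log x - p * (q * Real.log z) := by ring
        _ ≤ _ := h6
    · have hmax : max p q = p := by omega
      have hmin : min p q = q := by omega
      rw [hmax, hmin]
      have hBA : z ^ p < y := by
        by_contra hc
        rw [not_lt] at hc
        have h5 := Nat.pow_le_pow_left hc q
        rw [← hz2] at h5
        have h6 : (z ^ p) ^ q = y ^ q := by rw [← hz2]; omega
        have h7 : z ^ p = y := Nat.pow_left_injective (by omega : q ≠ 0) h6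
        have h8 : z = 1 := by
          have h9 : Nat.Coprime (z ^ p) z := by rw [h7]; exact hyz
          have h10 : z ∣ z ^ p := dvd_pow_self _ (by omega)
          have h11 := Nat.Coprime.eq_one_of_dvd h9.symm h10
          exact h11
        rw [h8, one_pow] at h7
        rw [h8, ← h7, one_pow, one_pow] at heq
        have h12 : x < 2 := by
          by_contra hc2
          rw [not_lt] at hc2
          have h13 := Nat.pow_le_pow_left hc2 p
          have h14 : 2 ^ 3 ≤ 2 ^ p := Nat.pow_le_pow_right (by norm_num) hp3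
          omega
        have h13 : x = 1 := by omega
        rw [h13, one_pow] at heq
        omega
      have h6 := g2 q p y (z ^ p) x (Real.log ((x : ℝ) ^ p)) hq hq3 (by omega)
        (Nat.one_le_pow _ _ hz) hBA (Nat.Coprime.pow_right _ hyz) hx
        (Or.inl ⟨by rw [← hz2]; exact heq, rfl⟩)
      rw [Real.log_pow] at h6
      push_cast at h6
      rw [Real.log_pow] at h6
      calc (p : ℝ) * Real.log x - p * q * Real.log z
          = p * Real.log x - q * (p * Real.log z) := by ring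
        _ ≤ _ := h6
  · intro hc
    have h5 := log_pq_le hp3 hq3
    have h6 : 0 ≤ 1 + Real.log ((p : ℝ) * q) := by
      have h7 : (1 : ℝ) ≤ (p : ℝ) * q := by
        exact_mod_cast Nat.one_le_iff_ne_zero.mpr (Nat.mul_ne_zero (by omega) (by omega))
      have := Real.log_nonneg h7
      linarith
    have h7 : C₃ * (1 + Real.log (p * q)) ^ 10 ≤ C₃ * (3 * Real.log ((max p q : ℕ) : ℝ)) ^ 10 :=
      mul_le_mul_of_nonneg_left (pow_le_pow_left₀ h6 h5 10) (by linarith)
    have h8 : ((min p q : ℕ) : ℝ) ≤ p := by exact_mod_cast min_le_left _ _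
    have h9 : ((min p q : ℕ) : ℝ) ≤ q := by exact_mod_cast min_le_right _ _
    exact g3 p q x y z hp hq hpq hp3 hq3 hx hy hz hxz hzy heq (by linarith) (by linarith)

/-- the quantity in the theorem -/
noncomputable def dl (P : ℕ) : ℝ := Real.log (P : ℝ) ^ 8 / Real.sqrt (P : ℝ)

lemma dl_nonneg (P : ℕ) : 0 ≤ dl P := by
  unfold dl; positivity

/-- `x ^ p` smallest -/
lemma caseB (h : Stmt_Casb) : ∃ C : ℝ, 1 ≤ C ∧ ∀ p q x Y Z w : ℕ, p.Prime → q.Prime → p ≠ q →
    3 ≤ p → 3 ≤ q → 1 ≤ x → 1 ≤ Z → 1 ≤ Y → Nat.Coprime Y Z → (Y = w ^ p ∨ Z = w ^ p) →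
    Z ^ q + x ^ p = Y ^ q →
    Real.log ((Y ^ q : ℕ) : ℝ) - Real.log ((x ^ p : ℕ) : ℝ) ≤
      C * dl (max p q) * Real.log ((Y ^ q : ℕ) : ℝ) := by
  obtain ⟨C, hC, g⟩ := h
  refine ⟨C, hC, ?_⟩
  intro p q x Y Z w hp hq hpq hp3 hq3 hx hZ hY hcop hw heq
  have hYZ : Z < Y := by
    by_contra hc
    rw [not_lt] at hc
    have h1 := Nat.pow_le_pow_left hc q
    have h2 : 1 ≤ x ^ p := Nat.one_le_pow _ _ hx
    omega
  have h1 := g p q x Y Z w hp hq hpq hq3 hx hZ hYZ hcop hw heq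
  have hlY : 0 ≤ Real.log Y := Real.log_nonneg (by exact_mod_cast hY)
  push_cast
  rw [Real.log_pow, Real.log_pow]
  refine h1.trans ?_
  apply mul_le_mul_of_nonneg_right _ (by positivity)
  apply mul_le_mul_of_nonneg_left _ (by linarith)
  exact comp1 (by omega)

/-- all terms of `u + v = M` are large if the smaller of `u`, `v` is -/
lemma all_terms {M u v t : ℕ} {B : ℝ} (hu : 1 ≤ u) (hv : 1 ≤ v) (h : u + v = M) (hB : 0 ≤ B)
    (h1 : u ≤ v → Real.log M - Real.log u ≤ B) (h2 : v ≤ u → Real.log M - Real.log v ≤ B)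
    (ht : t = u ∨ t = v ∨ t = M) : Real.log M - Real.log t ≤ B := by
  have hu0 : (0 : ℝ) < u := by exact_mod_cast hu
  have hv0 : (0 : ℝ) < v := by exact_mod_cast hv
  rcases ht with rfl | rfl | rfl
  · rcases le_total t v with h3 | h3
    · exact h1 h3
    · have h4 := h2 h3
      have h5 : Real.log v ≤ Real.log t := Real.log_le_log hv0 (by exact_mod_cast h3)
      linarith
  · rcases le_total u t with h3 | h3
    · have h4 := h1 h3
      have h5 : Real.log u ≤ Real.log t := Real.log_le_log hu0 (by exact_mod_cast h3)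
      linarith
    · exact h2 h3
  · linarith

/-- two different primes, all arrangements -/
lemma caseNE (h2 : Stmt_Gap2) (hB : Stmt_Casb) (h3 : Stmt_Stb) : ∃ C : ℝ, 1 ≤ C ∧
    ∀ p q x y z : ℕ, p.Prime → q.Prime → p ≠ q → 3 ≤ p → 3 ≤ q → 1 ≤ x → 1 ≤ y → 1 ≤ z →
    Nat.Coprime x y → Nat.Coprime y z → Nat.Coprime x z →
    (x ^ p + z ^ (p * q) = y ^ q ∨ z ^ (p * q) + y ^ q = x ^ p ∨ y ^ q + x ^ p = z ^ (p * q)) →
    ∃ M : ℕ, (M = x ^ p ∨ M = z ^ (p * q) ∨ M = y ^ q) ∧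
      x ^ p ≤ M ∧ z ^ (p * q) ≤ M ∧ y ^ q ≤ M ∧
      ∀ t, (t = x ^ p ∨ t = z ^ (p * q) ∨ t = y ^ q) →
        Real.log M - Real.log t ≤ C * dl (max p q) * Real.log M := by
  obtain ⟨C₁, hC1, g1⟩ := caseA h2 h3
  obtain ⟨C₂, hC2, g2⟩ := caseB hB
  refine ⟨C₁ + C₂, by linarith, ?_⟩
  intro p q x y z hp hq hpq hp3 hq3 hx hy hz hxy hyz hxz heq
  have hx1 : 1 ≤ x ^ p := Nat.one_le_pow _ _ hx
  have hy1 : 1 ≤ y ^ q := Nat.one_le_pow _ _ hy
  have hz1 : 1 ≤ z ^ (p * q) := Nat.one_le_pow _ _ hz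
  have hzp : z ^ (p * q) = (z ^ p) ^ q := by rw [← pow_mul]
  have hzq : z ^ (p * q) = (z ^ q) ^ p := by rw [← pow_mul, mul_comm]
  have hδ := dl_nonneg (max p q)
  have hup : ∀ (M : ℕ) (A : ℝ), 1 ≤ M → A ≤ C₁ * dl (max p q) * Real.log M →
      A ≤ (C₁ + C₂) * dl (max p q) * Real.log M := by
    intro M A hM hA
    have hl : 0 ≤ Real.log M := Real.log_nonneg (by exact_mod_cast hM)
    have h5 : 0 ≤ C₂ * dl (max p q) * Real.log M := by positivity
    linarith
  have hup2 : ∀ (M : ℕ) (A : ℝ), 1 ≤ M → A ≤ C₂ * dl (max p q) * Real.log M →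
      A ≤ (C₁ + C₂) * dl (max p q) * Real.log M := by
    intro M A hM hA
    have hl : 0 ≤ Real.log M := Real.log_nonneg (by exact_mod_cast hM)
    have h5 : 0 ≤ C₁ * dl (max p q) * Real.log M := by positivity
    linarith
  have hBnn : ∀ M : ℕ, 1 ≤ M → 0 ≤ (C₁ + C₂) * dl (max p q) * Real.log M := by
    intro M hM
    have hl : 0 ≤ Real.log M := Real.log_nonneg (by exact_mod_cast hM)
    positivity
  rcases heq with heq | heq | heq
  · -- `M = y ^ q`
    refine ⟨y ^ q, Or.inr (Or.inr rfl), by omega, by omega, le_rfl, ?_⟩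
    intro t ht
    apply all_terms hx1 hz1 heq (hBnn _ hy1) _ _ ht
    · intro _
      apply hup2 _ _ hy1
      exact g2 p q x y (z ^ p) z hp hq hpq hp3 hq3 hx (Nat.one_le_pow _ _ hz) hy
        (Nat.Coprime.pow_right _ hyz) (Or.inr rfl) (by rw [← hzp]; omega)
    · intro hle
      apply hup _ _ hy1
      have h5 := g1 q p y x z hq hp (Ne.symm hpq) hq3 hp3 hy hx hz hyz hxz
        (by rw [mul_comm q p]; exact hle) (by rw [mul_comm q p]; exact heq)
      rw [max_comm q p] at h5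
      push_cast
      rw [Real.log_pow, Real.log_pow]
      unfold dl
      push_cast at h5 ⊢
      calc (q : ℝ) * Real.log y - (p * q) * Real.log z = q * Real.log y - q * p * Real.log z := by
            ring
        _ ≤ _ := h5
  · refine ⟨x ^ p, Or.inl rfl, le_rfl, by omega, by omega, ?_⟩
    intro t ht
    apply all_terms hz1 hy1 heq (hBnn _ hx1) _ _ (by tauto)
    · intro hle
      apply hup _ _ hx1
      have h5 := g1 p q x y z hp hq hpq hp3 hq3 hx hy hz hxz hyz hle (by omega)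
      push_cast
      rw [Real.log_pow, Real.log_pow]
      unfold dl
      push_cast at h5 ⊢
      exact h5
    · intro _
      apply hup2 _ _ hx1
      have h5 := g2 q p y x (z ^ q) z hq hp (Ne.symm hpq) hq3 hp3 hy (Nat.one_le_pow _ _ hz) hx
        (Nat.Coprime.pow_right _ hxz) (Or.inr rfl) (by rw [← hzq]; omega)
      rw [max_comm q p] at h5
      exact h5
  · refine ⟨z ^ (p * q), Or.inr (Or.inl rfl), by omega, le_rfl, by omega, ?_⟩
    intro t ht
    apply all_terms hy1 hx1 heq (hBnn _ hz1) _ _ (by tauto)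
    · intro _
      apply hup2 _ _ hz1
      have h5 := g2 q p y (z ^ q) x z hq hp (Ne.symm hpq) hq3 hp3 hy hx (Nat.one_le_pow _ _ hz)
        (Nat.Coprime.pow_left _ hxz.symm) (Or.inl rfl) (by rw [← hzq]; omega)
      rw [max_comm q p, ← hzq] at h5
      exact h5
    · intro _
      apply hup2 _ _ hz1
      have h5 := g2 p q x (z ^ p) y z hp hq hpq hp3 hq3 hx hy (Nat.one_le_pow _ _ hz)
        (Nat.Coprime.pow_left _ hyz.symm) (Or.inl rfl) (by rw [← hzp]; omega)
      rw [← hzp] at h5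
      exact h5

/-- equal primes -/
lemma caseEQ {p X Y Z t : ℕ} (hp3 : 3 ≤ p) (hX : 1 ≤ X) (hY : 1 ≤ Y)
    (h : X ^ p + Y ^ p = Z ^ p) (ht : t = X ^ p ∨ t = Y ^ p ∨ t = Z ^ p) :
    Real.log ((Z ^ p : ℕ) : ℝ) - Real.log t ≤ 1 * dl (max p p) * Real.log ((Z ^ p : ℕ) : ℝ) := by
  have hX1 : 1 ≤ X ^ p := Nat.one_le_pow _ _ hX
  have hY1 : 1 ≤ Y ^ p := Nat.one_le_pow _ _ hY
  have hZ : 1 ≤ Z := by
    by_contra hc
    have h1 : Z = 0 := by omega
    rw [h1, zero_pow (by omega)] at h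
    omega
  have hlZ : 0 ≤ Real.log Z := Real.log_nonneg (by exact_mod_cast hZ)
  have hp1 : (1 : ℝ) ≤ p := by exact_mod_cast (by omega : 1 ≤ p)
  have hdl : 1 / (p : ℝ) ≤ dl (max p p) := by
    rw [max_self]
    unfold dl
    have h1 := log3_ge_one hp3
    have h2 : Real.sqrt p ≤ p := by
      rw [Real.sqrt_le_left (by linarith)]
      nlinarith
    have h3 : 0 < Real.sqrt p := Real.sqrt_pos.mpr (by linarith)
    exact div_le_div₀ (by positivity) (one_le_pow₀ h1) h3 h2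
  have hlog : Real.log ((Z ^ p : ℕ) : ℝ) = p * Real.log Z := by
    push_cast; rw [Real.log_pow]
  have key : ∀ {V : ℕ}, 1 ≤ V → Z ^ (p - 1) ≤ V ^ p →
      Real.log ((Z ^ p : ℕ) : ℝ) - Real.log ((V ^ p : ℕ) : ℝ) ≤
        1 * dl (max p p) * Real.log ((Z ^ p : ℕ) : ℝ) := by
    intro V hV hle
    have h1 : Real.log ((Z ^ (p - 1) : ℕ) : ℝ) ≤ Real.log ((V ^ p : ℕ) : ℝ) := by
      apply Real.log_le_log
      · exact_mod_cast Nat.one_le_pow _ _ hZ
      · exact_mod_cast hle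
    have h2 : Real.log ((Z ^ (p - 1) : ℕ) : ℝ) = (p - 1) * Real.log Z := by
      push_cast
      rw [Real.log_pow, Nat.cast_sub (by omega)]
      push_cast; ring
    rw [h2] at h1
    have h3 : 1 / (p : ℝ) * (p * Real.log Z) ≤ dl (max p p) * (p * Real.log Z) :=
      mul_le_mul_of_nonneg_right hdl (by positivity)
    have h4 : 1 / (p : ℝ) * (p * Real.log Z) = Real.log Z := by
      field_simp
    rw [hlog, one_mul]
    linarith
  rcases ht with rfl | rfl | rfl
  · exact key hX (fermat_case (by omega) hX hY h)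
  · exact key hY (fermat_case (by omega) hY hX (by omega))
  · have := dl_nonneg (max p p)
    rw [sub_self, hlog]
    positivity

lemma cop_all {u v w : ℕ} (h : u + v = w) (hc : Nat.Coprime u v ∨ Nat.Coprime u w ∨ Nat.Coprime v w) :
    Nat.Coprime u v ∧ Nat.Coprime u w ∧ Nat.Coprime v w := by
  subst h
  rw [Nat.coprime_self_add_right, Nat.coprime_add_self_right] at *
  rw [Nat.coprime_comm (m := v)] at *
  tauto

lemma final_step {A B D M : ℕ} {c : ℝ} (hA : 1 ≤ A) (hB : 1 ≤ B) (hD : 1 ≤ D)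
    (hM : M = A ∨ M = B ∨ M = D) (h1 : A ≤ M) (h2 : B ≤ M) (h3 : D ≤ M)
    (h : ∀ t : ℕ, (t = A ∨ t = B ∨ t = D) → Real.log M - Real.log t ≤ c * Real.log M) :
    ((max A (max B D) : ℕ) : ℝ) ^ (1 - c) ≤ ((min A (min B D) : ℕ) : ℝ) := by
  have h4 : max A (max B D) = M := by
    rcases hM with h5 | h5 | h5 <;> omega
  rw [h4]
  apply pow_form (by omega) (by omega)
  apply h
  omega

/-- **Theorem Y2** -/
theorem y2 (h2 : Stmt_Gap2) (hB : Stmt_Casb) (h3 : Stmt_Stb) : Stmt_Y2 := by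
  obtain ⟨C, hC, g⟩ := caseNE h2 hB h3
  refine ⟨C, ?_⟩
  intro a b c m n k p q ha hb hc hab hp hq hp2 hq2 hm hn hk hpm hpn hqn hqk heq
  have hp3 : 3 ≤ p := by have := hp.two_le; omega
  have hq3 : 3 ≤ q := by have := hq.two_le; omega
  have ham : 1 ≤ a ^ m := Nat.one_le_pow _ _ ha
  have hbn : 1 ≤ b ^ n := Nat.one_le_pow _ _ hb
  have hck : 1 ≤ c ^ k := Nat.one_le_pow _ _ hc
  have hcop : Nat.Coprime (a ^ m) (b ^ n) := Nat.Coprime.pow _ _ hab
  have hall : Nat.Coprime (a ^ m) (b ^ n) ∧ Nat.Coprime (b ^ n) (c ^ k) ∧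
      Nat.Coprime (a ^ m) (c ^ k) := by
    rcases heq with h | h | h
    · have := cop_all h (Or.inl hcop)
      tauto
    · have := cop_all h (Or.inr (Or.inl hcop.symm))
      have h5 := this.2.2.symm
      tauto
    · have := cop_all h (Or.inr (Or.inr hcop))
      have h5 := this.1.symm
      have h6 := this.2.1.symm
      tauto
  obtain ⟨m', rfl⟩ := hpm
  obtain ⟨k', rfl⟩ := hqk
  have hdl : ∀ P : ℕ, Real.log (P : ℝ) ^ 8 / Real.sqrt (P : ℝ) = dl P := fun _ => rfl
  rw [hdl]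
  by_cases hpq : p = q
  · subst hpq
    obtain ⟨n', rfl⟩ := hpn
    have e1 : a ^ (p * m') = (a ^ m') ^ p := by rw [← pow_mul, mul_comm]
    have e2 : b ^ (p * n') = (b ^ n') ^ p := by rw [← pow_mul, mul_comm]
    have e3 : c ^ (p * k') = (c ^ k') ^ p := by rw [← pow_mul, mul_comm]
    have hx : 1 ≤ a ^ m' := Nat.one_le_pow _ _ ha
    have hz : 1 ≤ b ^ n' := Nat.one_le_pow _ _ hb
    have hy : 1 ≤ c ^ k' := Nat.one_le_pow _ _ hc
    rw [e1] at ham hall heq ⊢
    rw [e2] at hbn hall heq ⊢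
    rw [e3] at hck hall heq ⊢
    have hw : ∀ (M : ℕ) (A : ℝ), 1 ≤ M → A ≤ 1 * dl (max p p) * Real.log M →
        A ≤ C * dl (max p p) * Real.log M := by
      intro M A hM hA
      refine hA.trans ?_
      apply mul_le_mul_of_nonneg_right _ (Real.log_nonneg (by exact_mod_cast hM))
      exact mul_le_mul_of_nonneg_right hC (dl_nonneg _)
    rcases heq with h | h | h
    · apply final_step ham hbn hck (M := (c ^ k') ^ p) (Or.inr (Or.inr rfl)) (by omega) (by omega)
        le_rfl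
      intro t ht
      apply hw _ _ hck
      exact caseEQ hp3 hx hz h (by tauto)
    · apply final_step ham hbn hck (M := (a ^ m') ^ p) (Or.inl rfl) le_rfl (by omega) (by omega)
      intro t ht
      apply hw _ _ ham
      exact caseEQ hp3 hz hy h (by tauto)
    · apply final_step ham hbn hck (M := (b ^ n') ^ p) (Or.inr (Or.inl rfl)) (by omega) le_rfl
        (by omega)
      intro t ht
      apply hw _ _ hbn
      exact caseEQ hp3 hy hx h (by tauto)
  · have hdvd : p * q ∣ n :=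
      Nat.Coprime.mul_dvd_of_dvd_of_dvd ((Nat.coprime_primes hp hq).mpr hpq) hpn hqn
    obtain ⟨n', rfl⟩ := hdvd
    have e1 : a ^ (p * m') = (a ^ m') ^ p := by rw [← pow_mul, mul_comm]
    have e2 : b ^ (p * q * n') = (b ^ n') ^ (p * q) := by rw [← pow_mul, mul_comm]
    have e3 : c ^ (q * k') = (c ^ k') ^ q := by rw [← pow_mul, mul_comm]
    have hx : 1 ≤ a ^ m' := Nat.one_le_pow _ _ ha
    have hz : 1 ≤ b ^ n' := Nat.one_le_pow _ _ hb
    have hy : 1 ≤ c ^ k' := Nat.one_le_pow _ _ hc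
    rw [e1] at ham hall heq ⊢
    rw [e2] at hbn hall heq ⊢
    rw [e3] at hck hall heq ⊢
    have hpos : 0 < p * q := Nat.mul_pos (by omega) (by omega)
    obtain ⟨hc1, hc2, hc3⟩ := hall
    have hxz : Nat.Coprime (a ^ m') (b ^ n') := by
      rwa [Nat.coprime_pow_left_iff (by omega), Nat.coprime_pow_right_iff hpos] at hc1
    have hzy : Nat.Coprime (b ^ n') (c ^ k') := by
      rwa [Nat.coprime_pow_left_iff hpos, Nat.coprime_pow_right_iff (by omega)] at hc2
    have hxy : Nat.Coprime (a ^ m') (c ^ k') := by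
      rwa [Nat.coprime_pow_left_iff (by omega), Nat.coprime_pow_right_iff (by omega)] at hc3
    obtain ⟨M, hM, h5, h6, h7, h8⟩ := g p q (a ^ m') (c ^ k') (b ^ n') hp hq hpq hp3 hq3 hx hy hz
      hxy hzy.symm hxz heq
    exact final_step ham hbn hck hM h5 h6 h7 h8

end Pool.Agent.Work.MP_2738db_nt_Y.helper16
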