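import Pool.Agent.Work.MP_2738db_nt_Y.Interface2
import Pool.Agent.Work.MP_2738db_nt_Y_helper16.Y2

set_option autoImplicit false

namespace Pool.Agent.Work.MP_2738db_nt_Y.helper16

open Finset

/-- GAP2 for all primes -/
def GapAll (C : ℝ) : Prop :=
  ∀ (p k A B c : ℕ) (M : ℝ), p.Prime → 2 ≤ k → 1 ≤ B → B < A →
    Nat.Coprime A B → 1 ≤ c → (A ^ p + B ^ p = c ^ k ∧ M = Real.log (c ^ k) ∨
      B ^ p + c ^ k = A ^ p ∧ M = Real.log (A ^ p)) →
    M - p * Real.log B ≤ C * (p * Real.log k ^ 3 / k) * M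

lemma gapAll (h : Stmt_Gap2) (h' : Stmt_Gap22) : ∃ C : ℝ, 1 ≤ C ∧ GapAll C := by
  obtain ⟨C₁, hC1, g1⟩ := h
  obtain ⟨C₂, hC2, g2⟩ := h'
  refine ⟨C₁ + C₂, by linarith, ?_⟩
  intro p k A B c M hp hk hB hBA hco hc heq
  have hA1 : 1 ≤ A := by omega
  have hM : 0 ≤ M := by
    rcases heq with ⟨_, h⟩ | ⟨_, h⟩
    · rw [h]; exact Real.log_nonneg (one_le_pow₀ (by exact_mod_cast hc))
    · rw [h]; exact Real.log_nonneg (one_le_pow₀ (by exact_mod_cast hA1))
  have hlk : 0 ≤ Real.log k := Real.log_nonneg (by exact_mod_cast (by omega : 1 ≤ k))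
  by_cases hp3 : 3 ≤ p
  · refine (g1 p k A B c M hp hp3 hk hB hBA hco hc heq).trans ?_
    apply mul_le_mul_of_nonneg_right _ hM
    apply mul_le_mul_of_nonneg_right (by linarith) (by positivity)
  · have hp2 : p = 2 := by have := hp.two_le; omega
    subst hp2
    have h5 := g2 k A B c M hk hB hBA hco hc heq
    have h6 : C₂ * (Real.log k ^ 3 / k) * M ≤ (C₁ + C₂) * ((2 : ℕ) * Real.log k ^ 3 / k) * M := by
      apply mul_le_mul_of_nonneg_right _ hM
      have h7 : 0 ≤ Real.log k ^ 3 / k := by positivity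
      have h8 : ((2 : ℕ) : ℝ) * Real.log k ^ 3 / k = 2 * (Real.log k ^ 3 / k) := by
        push_cast; ring
      rw [h8]
      nlinarith
    push_cast at h5 h6 ⊢
    linarith

lemma y1key {C : ℝ} (hC : GapAll C) (p k A B c : ℕ) (hp : p.Prime) (hk : 2 ≤ k) (hB : 1 ≤ B)
    (hAB : B < A) (hco : Nat.Coprime A B) (hc : 1 ≤ c)
    (h : A ^ p + B ^ p = c ^ k ∨ B ^ p + c ^ k = A ^ p) :
    ((max (A ^ p) (max (B ^ p) (c ^ k)) : ℕ) : ℝ) ^ (1 - C * (p * Real.log k ^ 3 / k)) ≤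
      ((min (A ^ p) (B ^ p) : ℕ) : ℝ) := by
  have hp0 : p ≠ 0 := hp.ne_zero
  have hlt : B ^ p < A ^ p := Nat.pow_lt_pow_left hAB hp0
  have hBp : 1 ≤ B ^ p := Nat.one_le_pow _ _ hB
  have hAp : 1 ≤ A ^ p := by omega
  have hck : 1 ≤ c ^ k := Nat.one_le_pow _ _ hc
  rw [min_eq_right hlt.le]
  rcases h with h | h
  · have hmax : max (A ^ p) (max (B ^ p) (c ^ k)) = c ^ k := by
      rw [max_eq_right (a := B ^ p) (b := c ^ k) (by omega), max_eq_right (by omega)]
    rw [hmax]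
    apply pow_form hck hBp
    have := hC p k A B c (Real.log (c ^ k)) hp hk hB hAB hco hc (Or.inl ⟨h, rfl⟩)
    push_cast
    rw [Real.log_pow (B : ℝ) p]
    exact this
  · have hmax : max (A ^ p) (max (B ^ p) (c ^ k)) = A ^ p := by
      rw [max_eq_left]
      exact max_le (by omega) (by omega)
    rw [hmax]
    apply pow_form hAp hBp
    have := hC p k A B c (Real.log (A ^ p)) hp hk hB hAB hco hc (Or.inr ⟨h, rfl⟩)
    push_cast
    rw [Real.log_pow (B : ℝ) p]
    exact this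

/-- **Theorem Y1, all primes** -/
theorem y1a (h : Stmt_Gap2) (h' : Stmt_Gap22) : Stmt_Y1a := by
  obtain ⟨C, _, hC⟩ := gapAll h h'
  refine ⟨C, ?_⟩
  intro a b c m n k p ha hb hc hab hk hp hm hn hpm hpn h
  have hp0 : p ≠ 0 := hp.ne_zero
  obtain ⟨m', rfl⟩ := hpm
  obtain ⟨n', rfl⟩ := hpn
  have ea : a ^ (p * m') = (a ^ m') ^ p := by rw [mul_comm, pow_mul]
  have eb : b ^ (p * n') = (b ^ n') ^ p := by rw [mul_comm, pow_mul]
  rw [ea, eb] at h ⊢
  have hA : 1 ≤ a ^ m' := Nat.one_le_pow _ _ ha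
  have hB : 1 ≤ b ^ n' := Nat.one_le_pow _ _ hb
  have hco : Nat.Coprime (a ^ m') (b ^ n') := Nat.Coprime.pow _ _ hab
  generalize a ^ m' = A at *
  generalize b ^ n' = B at *
  have hck : 1 ≤ c ^ k := Nat.one_le_pow _ _ hc
  rcases lt_trichotomy A B with hlt | heq | hgt
  · have hl : A ^ p < B ^ p := Nat.pow_lt_pow_left hlt hp0
    have e1 : max (A ^ p) (max (B ^ p) (c ^ k)) = max (B ^ p) (max (A ^ p) (c ^ k)) :=
      max_left_comm _ _ _
    rw [e1, min_comm (A ^ p) (B ^ p)]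
    refine y1key hC p k B A c hp hk hA hlt hco.symm hc ?_
    rcases h with h | h | h
    · left; omega
    · exfalso; omega
    · right; omega
  · subst heq
    have hA1 : A = 1 := by
      have := hco
      rwa [Nat.coprime_self] at this
    subst hA1
    exfalso
    simp only [one_pow] at h
    rcases h with h | h | h
    · have hc2 : 2 ≤ c := by
        rcases Nat.lt_or_ge c 2 with h2 | h2
        · have : c = 1 := by omega
          subst this
          simp at h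
        · exact h2
      have : 2 ^ 2 ≤ c ^ k := le_trans (Nat.pow_le_pow_left hc2 2) (Nat.pow_le_pow_right hc hk)
      omega
    · omega
    · omega
  · have hl : B ^ p < A ^ p := Nat.pow_lt_pow_left hgt hp0
    refine y1key hC p k A B c hp hk hB hgt hco hc ?_
    rcases h with h | h | h
    · left; omega
    · right; omega
    · exfalso; omega

/-- `p = 2`, all arrangements -/
lemma caseTwo (hB : Stmt_Casb) (h2 : Stmt_Gap22) (hc : Stmt_Casc) : ∃ C : ℝ, 1 ≤ C ∧
    ∀ q x y z : ℕ, q.Prime → 3 ≤ q → 1 ≤ x → 1 ≤ y → 1 ≤ z →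
    Nat.Coprime x y → Nat.Coprime y z → Nat.Coprime x z →
    (x ^ 2 + z ^ (2 * q) = y ^ q ∨ z ^ (2 * q) + y ^ q = x ^ 2 ∨ y ^ q + x ^ 2 = z ^ (2 * q)) →
    ∃ M : ℕ, (M = x ^ 2 ∨ M = z ^ (2 * q) ∨ M = y ^ q) ∧
      x ^ 2 ≤ M ∧ z ^ (2 * q) ≤ M ∧ y ^ q ≤ M ∧
      ∀ t, (t = x ^ 2 ∨ t = z ^ (2 * q) ∨ t = y ^ q) →
        Real.log M - Real.log t ≤ C * dl q * Real.log M := by
  obtain ⟨C₁, hC1, g1⟩ := hB
  obtain ⟨C₂, hC2, g2⟩ := h2
  obtain ⟨C₃, hC3, g3⟩ := hc
  refine ⟨C₁ + C₂ + C₃, by linarith, ?_⟩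
  intro q x y z hq hq3 hx hy hz hxy hyz hxz heq
  have hx1 : 1 ≤ x ^ 2 := Nat.one_le_pow _ _ hx
  have hy1 : 1 ≤ y ^ q := Nat.one_le_pow _ _ hy
  have hz1 : 1 ≤ z ^ (2 * q) := Nat.one_le_pow _ _ hz
  have hzp : z ^ (2 * q) = (z ^ 2) ^ q := by rw [← pow_mul]
  have hzq : z ^ (2 * q) = (z ^ q) ^ 2 := by rw [← pow_mul, mul_comm]
  have hzq1 : 1 ≤ z ^ q := Nat.one_le_pow _ _ hz
  have hz21 : 1 ≤ z ^ 2 := Nat.one_le_pow _ _ hz
  have hδ := dl_nonneg q
  have hmax : max 2 q = q := by omega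
  have hc1 := comp1 hq3
  have hBnn : ∀ M : ℕ, 1 ≤ M → 0 ≤ (C₁ + C₂ + C₃) * dl q * Real.log M := by
    intro M hM
    have hl : 0 ≤ Real.log M := Real.log_nonneg (by exact_mod_cast hM)
    positivity
  have hlift : ∀ (c : ℝ) (M : ℝ) (A : ℝ), 0 ≤ M → c ≤ C₁ + C₂ + C₃ → 0 ≤ c →
      A ≤ c * (Real.log q ^ 3 / q) * M → A ≤ (C₁ + C₂ + C₃) * dl q * M := by
    intro c M A hM hcc hc0 hA
    refine hA.trans ?_
    apply mul_le_mul_of_nonneg_right _ hM
    calc c * (Real.log q ^ 3 / q) ≤ c * dl q := mul_le_mul_of_nonneg_left hc1 hc0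
      _ ≤ _ := mul_le_mul_of_nonneg_right hcc hδ
  -- gap for `x ^ 2` smallest
  have hcb : ∀ Y Z : ℕ, 1 ≤ Z → 1 ≤ Y → Nat.Coprime Y Z → (Y = z ^ 2 ∨ Z = z ^ 2) →
      Z ^ q + x ^ 2 = Y ^ q →
      Real.log ((Y ^ q : ℕ) : ℝ) - Real.log ((x ^ 2 : ℕ) : ℝ) ≤
        (C₁ + C₂ + C₃) * dl q * Real.log ((Y ^ q : ℕ) : ℝ) := by
    intro Y Z hZ hY hcop hw h
    have hYZ : Z < Y := by
      by_contra hcc
      rw [not_lt] at hcc
      have h1 := Nat.pow_le_pow_left hcc q
      omega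
    have h1 := g1 2 q x Y Z z Nat.prime_two hq (by omega) hq3 hx hZ hYZ hcop hw h
    rw [hmax] at h1
    have hlY : 0 ≤ Real.log Y := Real.log_nonneg (by exact_mod_cast hY)
    push_cast at h1 ⊢
    rw [Real.log_pow, Real.log_pow]
    push_cast
    exact hlift C₁ _ _ (by positivity) (by linarith) (by linarith) h1
  -- gap for `y ^ q` smallest
  have hcc : ∀ Y Z : ℕ, 1 ≤ Z → 1 ≤ Y → Nat.Coprime Y Z → (Y = z ^ q ∨ Z = z ^ q) →
      Z ^ 2 + y ^ q = Y ^ 2 →
      Real.log ((Y ^ 2 : ℕ) : ℝ) - Real.log ((y ^ q : ℕ) : ℝ) ≤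
        (C₁ + C₂ + C₃) * dl q * Real.log ((Y ^ 2 : ℕ) : ℝ) := by
    intro Y Z hZ hY hcop hw h
    have hYZ : Z < Y := by
      by_contra hcc
      rw [not_lt] at hcc
      have h1 := Nat.pow_le_pow_left hcc 2
      omega
    have h1 := g3 q y Y Z z hq hq3 hy hZ hYZ hcop hw h
    have hlY : 0 ≤ Real.log Y := Real.log_nonneg (by exact_mod_cast hY)
    push_cast at h1 ⊢
    rw [Real.log_pow, Real.log_pow]
    push_cast
    exact hlift C₃ _ _ (by positivity) (by linarith) (by linarith) h1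
  rcases heq with heq | heq | heq
  · refine ⟨y ^ q, Or.inr (Or.inr rfl), by omega, by omega, le_rfl, ?_⟩
    intro t ht
    apply all_terms hx1 hz1 heq (hBnn _ hy1) _ _ ht
    · intro _
      exact hcb y (z ^ 2) hz21 hy (Nat.Coprime.pow_right _ hyz) (Or.inr rfl)
        (by rw [← hzp]; omega)
    · intro hle
      have hBA : z ^ q < x := by
        by_contra hcc
        rw [not_lt] at hcc
        have h5 := Nat.pow_le_pow_left hcc 2
        rw [← hzq] at h5
        have h6 : (z ^ q) ^ 2 = x ^ 2 := by rw [← hzq]; omega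
        have h7 : z ^ q = x := Nat.pow_left_injective (by omega : 2 ≠ 0) h6
        have h9 : Nat.Coprime (z ^ q) z := by rw [h7]; exact hxz
        have h10 : z ∣ z ^ q := dvd_pow_self _ (by omega)
        have h8 : z = 1 := Nat.Coprime.eq_one_of_dvd h9.symm h10
        rw [h8, one_pow] at h7
        rw [h8, ← h7, one_pow, one_pow] at heq
        have h12 : y < 2 := by
          by_contra hc2
          rw [not_lt] at hc2
          have h13 := Nat.pow_le_pow_left hc2 q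
          have h14 : 2 ^ 3 ≤ 2 ^ q := Nat.pow_le_pow_right (by norm_num) hq3
          omega
        have h13 : y = 1 := by omega
        rw [h13, one_pow] at heq
        omega
      have h6 := g2 q x (z ^ q) y (Real.log ((y : ℝ) ^ q)) (by omega) hzq1 hBA
        (Nat.Coprime.pow_right _ hxz) hy (Or.inl ⟨by rw [← hzq]; exact heq, rfl⟩)
      have hlY : 0 ≤ Real.log y := Real.log_nonneg (by exact_mod_cast hy)
      push_cast at h6 ⊢
      rw [Real.log_pow, Real.log_pow] at *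
      push_cast
      have h7 := hlift C₂ _ _ (by positivity) (by linarith) (by linarith) h6
      calc (q : ℝ) * Real.log y - 2 * q * Real.log z
          = q * Real.log y - 2 * (q * Real.log z) := by ring
        _ ≤ _ := h7
  · refine ⟨x ^ 2, Or.inl rfl, le_rfl, by omega, by omega, ?_⟩
    intro t ht
    apply all_terms hz1 hy1 heq (hBnn _ hx1) _ _ (by tauto)
    · intro hle
      have hBA : z ^ q < x := by
        by_contra hcc
        rw [not_lt] at hcc
        have h5 := Nat.pow_le_pow_left hcc 2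
        rw [← hzq] at h5
        omega
      have h6 := g2 q x (z ^ q) y (Real.log ((x : ℝ) ^ 2)) (by omega) hzq1 hBA
        (Nat.Coprime.pow_right _ hxz) hy (Or.inr ⟨by rw [← hzq]; exact heq, rfl⟩)
      have hlY : 0 ≤ Real.log x := Real.log_nonneg (by exact_mod_cast hx)
      push_cast at h6 ⊢
      rw [Real.log_pow, Real.log_pow] at *
      push_cast at h6 ⊢
      have h7 := hlift C₂ _ _ (by positivity) (by linarith) (by linarith) h6
      calc (2 : ℝ) * Real.log x - 2 * q * Real.log z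
          = 2 * Real.log x - 2 * (q * Real.log z) := by ring
        _ ≤ _ := h7
    · intro _
      exact hcc x (z ^ q) hzq1 hx (Nat.Coprime.pow_right _ hxz) (Or.inr rfl)
        (by rw [← hzq]; omega)
  · refine ⟨z ^ (2 * q), Or.inr (Or.inl rfl), by omega, le_rfl, by omega, ?_⟩
    intro t ht
    apply all_terms hy1 hx1 heq (hBnn _ hz1) _ _ (by tauto)
    · intro _
      have h5 := hcc (z ^ q) x hx hzq1 (Nat.Coprime.pow_left _ hxz.symm) (Or.inl rfl)
        (by rw [← hzq]; omega)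
      rw [← hzq] at h5
      exact h5
    · intro _
      have h5 := hcb (z ^ 2) y hy hz21 (Nat.Coprime.pow_left _ hyz.symm) (Or.inl rfl)
        (by rw [← hzp]; omega)
      rw [← hzp] at h5
      exact h5

/-- two different primes, `2` allowed, all arrangements -/
lemma caseNEa (h2 : Stmt_Gap2) (hB : Stmt_Casb) (h3 : Stmt_Stb) (h22 : Stmt_Gap22)
    (hc : Stmt_Casc) : ∃ C : ℝ, 1 ≤ C ∧
    ∀ p q x y z : ℕ, p.Prime → q.Prime → p ≠ q → 1 ≤ x → 1 ≤ y → 1 ≤ z →
    Nat.Coprime x y → Nat.Coprime y z → Nat.Coprime x z →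
    (x ^ p + z ^ (p * q) = y ^ q ∨ z ^ (p * q) + y ^ q = x ^ p ∨ y ^ q + x ^ p = z ^ (p * q)) →
    ∃ M : ℕ, (M = x ^ p ∨ M = z ^ (p * q) ∨ M = y ^ q) ∧
      x ^ p ≤ M ∧ z ^ (p * q) ≤ M ∧ y ^ q ≤ M ∧
      ∀ t, (t = x ^ p ∨ t = z ^ (p * q) ∨ t = y ^ q) →
        Real.log M - Real.log t ≤ C * dl (max p q) * Real.log M := by
  obtain ⟨C₁, hC1, g1⟩ := caseNE h2 hB h3
  obtain ⟨C₂, hC2, g2⟩ := caseTwo hB h22 hc
  refine ⟨C₁ + C₂, by linarith, ?_⟩
  intro p q x y z hp hq hpq hx hy hz hxy hyz hxz heq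
  have hlift : ∀ (c : ℝ) (P M : ℕ) (A : ℝ), 1 ≤ M → c ≤ C₁ + C₂ →
      A ≤ c * dl P * Real.log M → A ≤ (C₁ + C₂) * dl P * Real.log M := by
    intro c P M A hM hcc hA
    refine hA.trans ?_
    apply mul_le_mul_of_nonneg_right _ (Real.log_nonneg (by exact_mod_cast hM))
    exact mul_le_mul_of_nonneg_right hcc (dl_nonneg P)
  have hx1 : 1 ≤ x ^ p := Nat.one_le_pow _ _ hx
  rcases Nat.lt_or_ge p 3 with hp3 | hp3
  · have hp2 : p = 2 := by have := hp.two_le; omega
    subst hp2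
    have hq3 : 3 ≤ q := by have := hq.two_le; omega
    obtain ⟨M, hM, h5, h6, h7, h8⟩ := g2 q x y z hq hq3 hx hy hz hxy hyz hxz heq
    refine ⟨M, hM, h5, h6, h7, ?_⟩
    intro t ht
    have hmax : max 2 q = q := by omega
    rw [hmax]
    exact hlift C₂ _ _ _ (by omega) (by linarith) (h8 t ht)
  · rcases Nat.lt_or_ge q 3 with hq3 | hq3
    · have hq2 : q = 2 := by have := hq.two_le; omega
      subst hq2
      have e1 : p * 2 = 2 * p := mul_comm _ _
      rw [e1] at heq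
      obtain ⟨M, hM, h5, h6, h7, h8⟩ := g2 p y x z hp hp3 hy hx hz hxy.symm hxz hyz (by omega)
      rw [e1]
      refine ⟨M, by tauto, h7, h6, h5, ?_⟩
      intro t ht
      have hmax : max p 2 = p := by omega
      rw [hmax]
      exact hlift C₂ _ _ _ (by omega) (by linarith) (h8 t (by tauto))
    · obtain ⟨M, hM, h5, h6, h7, h8⟩ := g1 p q x y z hp hq hpq hp3 hq3 hx hy hz hxy hyz hxz heq
      refine ⟨M, hM, h5, h6, h7, ?_⟩
      intro t ht
      exact hlift C₁ _ _ _ (by omega) (by linarith) (h8 t ht)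

lemma dl_two : 1 ≤ 50 * dl 2 := by
  unfold dl
  have h1 : 0.693 ≤ Real.log 2 := by linarith [Real.log_two_gt_d9]
  have h2 : (0.693 : ℝ) ^ 8 ≤ Real.log 2 ^ 8 := pow_le_pow_left₀ (by norm_num) h1 8
  have h3 : Real.sqrt 2 ≤ 1.5 := by
    rw [Real.sqrt_le_left (by norm_num)]
    norm_num
  have h4 : 0 < Real.sqrt 2 := Real.sqrt_pos.mpr (by norm_num)
  push_cast
  rw [← mul_div_assoc, le_div_iff₀ h4]
  have h5 : (0.03 : ℝ) ≤ 0.693 ^ 8 := by norm_num
  nlinarith

/-- **Theorem Y2, all primes** -/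
theorem y2a (h2 : Stmt_Gap2) (hB : Stmt_Casb) (h3 : Stmt_Stb) (h22 : Stmt_Gap22)
    (hcc : Stmt_Casc) : Stmt_Y2a := by
  obtain ⟨C, hC, g⟩ := caseNEa h2 hB h3 h22 hcc
  refine ⟨C + 50, ?_⟩
  intro a b c m n k p q ha hb hc hab hp hq hm hn hk hpm hpn hqn hqk heq
  have ham : 1 ≤ a ^ m := Nat.one_le_pow _ _ ha
  have hbn : 1 ≤ b ^ n := Nat.one_le_pow _ _ hb
  have hck : 1 ≤ c ^ k := Nat.one_le_pow _ _ hc
  have hcop : Nat.Coprime (a ^ m) (b ^ n) := Nat.Coprime.pow _ _ hab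
  have hall : Nat.Coprime (a ^ m) (b ^ n) ∧ Nat.Coprime (b ^ n) (c ^ k) ∧
      Nat.Coprime (a ^ m) (c ^ k) := by
    rcases heq with h | h | h
    · have := cop_all h (Or.inl hcop)
      tauto
    · have := cop_all h (Or.inr (Or.inl hcop.symm))
      have h5 := this.2.2.symm
      tauto
    · have := cop_all h (Or.inr (Or.inr hcop))
      have h5 := this.1.symm
      have h6 := this.2.1.symm
      tauto
  obtain ⟨m', rfl⟩ := hpm
  obtain ⟨k', rfl⟩ := hqk
  have hdl : ∀ P : ℕ, Real.log (P : ℝ) ^ 8 / Real.sqrt (P : ℝ) = dl P := fun _ => rfl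
  rw [hdl]
  by_cases hpq : p = q
  · subst hpq
    obtain ⟨n', rfl⟩ := hpn
    have e1 : a ^ (p * m') = (a ^ m') ^ p := by rw [← pow_mul, mul_comm]
    have e2 : b ^ (p * n') = (b ^ n') ^ p := by rw [← pow_mul, mul_comm]
    have e3 : c ^ (p * k') = (c ^ k') ^ p := by rw [← pow_mul, mul_comm]
    have hx : 1 ≤ a ^ m' := Nat.one_le_pow _ _ ha
    have hz : 1 ≤ b ^ n' := Nat.one_le_pow _ _ hb
    have hy : 1 ≤ c ^ k' := Nat.one_le_pow _ _ hc
    rw [e1] at ham hall heq ⊢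
    rw [e2] at hbn hall heq ⊢
    rw [e3] at hck hall heq ⊢
    by_cases hp3 : 3 ≤ p
    · have hw : ∀ (M : ℕ) (A : ℝ), 1 ≤ M → A ≤ 1 * dl (max p p) * Real.log M →
          A ≤ (C + 50) * dl (max p p) * Real.log M := by
        intro M A hM hA
        refine hA.trans ?_
        apply mul_le_mul_of_nonneg_right _ (Real.log_nonneg (by exact_mod_cast hM))
        exact mul_le_mul_of_nonneg_right (by linarith) (dl_nonneg _)
      rcases heq with h | h | h
      · apply final_step ham hbn hck (M := (c ^ k') ^ p) (Or.inr (Or.inr rfl)) (by omega)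
          (by omega) le_rfl
        intro t ht
        apply hw _ _ hck
        exact caseEQ hp3 hx hz h (by tauto)
      · apply final_step ham hbn hck (M := (a ^ m') ^ p) (Or.inl rfl) le_rfl (by omega) (by omega)
        intro t ht
        apply hw _ _ ham
        exact caseEQ hp3 hz hy h (by tauto)
      · apply final_step ham hbn hck (M := (b ^ n') ^ p) (Or.inr (Or.inl rfl)) (by omega) le_rfl
          (by omega)
        intro t ht
        apply hw _ _ hbn
        exact caseEQ hp3 hy hx h (by tauto)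
    · have hp2 : p = 2 := by have := hp.two_le; omega
      subst hp2
      rw [max_self]
      have h50 := dl_two
      have h51 : 1 - (C + 50) * dl 2 ≤ 0 := by
        have := mul_nonneg (by linarith : 0 ≤ C) (dl_nonneg 2)
        linarith
      have h52 : (1 : ℝ) ≤ ((max ((a ^ m') ^ 2) (max ((b ^ n') ^ 2) ((c ^ k') ^ 2)) : ℕ) : ℝ) := by
        exact_mod_cast (by omega :
          1 ≤ max ((a ^ m') ^ 2) (max ((b ^ n') ^ 2) ((c ^ k') ^ 2)))
      refine (Real.rpow_le_one_of_one_le_of_nonpos h52 h51).trans ?_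
      exact_mod_cast (by omega :
        1 ≤ min ((a ^ m') ^ 2) (min ((b ^ n') ^ 2) ((c ^ k') ^ 2)))
  · have hdvd : p * q ∣ n :=
      Nat.Coprime.mul_dvd_of_dvd_of_dvd ((Nat.coprime_primes hp hq).mpr hpq) hpn hqn
    obtain ⟨n', rfl⟩ := hdvd
    have e1 : a ^ (p * m') = (a ^ m') ^ p := by rw [← pow_mul, mul_comm]
    have e2 : b ^ (p * q * n') = (b ^ n') ^ (p * q) := by rw [← pow_mul, mul_comm]
    have e3 : c ^ (q * k') = (c ^ k') ^ q := by rw [← pow_mul, mul_comm]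
    have hx : 1 ≤ a ^ m' := Nat.one_le_pow _ _ ha
    have hz : 1 ≤ b ^ n' := Nat.one_le_pow _ _ hb
    have hy : 1 ≤ c ^ k' := Nat.one_le_pow _ _ hc
    rw [e1] at ham hall heq ⊢
    rw [e2] at hbn hall heq ⊢
    rw [e3] at hck hall heq ⊢
    have hp1 := hp.pos
    have hq1 := hq.pos
    have hpos : 0 < p * q := Nat.mul_pos hp1 hq1
    obtain ⟨hc1, hc2, hc3⟩ := hall
    have hxz : Nat.Coprime (a ^ m') (b ^ n') := by
      rwa [Nat.coprime_pow_left_iff hp1, Nat.coprime_pow_right_iff hpos] at hc1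
    have hzy : Nat.Coprime (b ^ n') (c ^ k') := by
      rwa [Nat.coprime_pow_left_iff hpos, Nat.coprime_pow_right_iff hq1] at hc2
    have hxy : Nat.Coprime (a ^ m') (c ^ k') := by
      rwa [Nat.coprime_pow_left_iff hp1, Nat.coprime_pow_right_iff hq1] at hc3
    obtain ⟨M, hM, h5, h6, h7, h8⟩ := g p q (a ^ m') (c ^ k') (b ^ n') hp hq hpq hx hy hz
      hxy hzy.symm hxz heq
    apply final_step ham hbn hck hM h5 h6 h7
    intro t ht
    refine (h8 t ht).trans ?_
    have hM1 : 1 ≤ M := by omega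
    apply mul_le_mul_of_nonneg_right _ (Real.log_nonneg (by exact_mod_cast hM1))
    exact mul_le_mul_of_nonneg_right (by linarith) (dl_nonneg _)

end Pool.Agent.Work.MP_2738db_nt_Y.helper16
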