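import Pool.Agent.Work.MP_2738db_nt_Y.Interface3
import Pool.Agent.Work.MP_2738db_nt_Y_helper16.Y12A

set_option autoImplicit false

namespace Pool.Agent.Work.MP_2738db_nt_Y.helper16

open Finset

/-- the three arrangements with the logarithm of the largest term -/
def Arr (u v w : ℕ) (M : ℝ) : Prop :=
  (u + v = w ∧ M = Real.log w) ∨ (v + w = u ∧ M = Real.log u) ∨ (w + u = v ∧ M = Real.log v)

/-- GAP2R for all primes -/
def GapR (C : ℝ) : Prop :=
  ∀ (p k A B c r : ℕ) (M : ℝ), p.Prime → 2 ≤ k → 1 ≤ A → 1 ≤ B → 1 ≤ c → Nat.Coprime A B →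
    r.Prime → r ∣ B → Arr (A ^ p) (B ^ p) (c ^ k) M →
    p * (padicValNat r B) * Real.log r ≤ C * r ^ 3 * (p * Real.log k ^ 3 / k) * M

lemma arr_nonneg {u v w : ℕ} {M : ℝ} (hu : 1 ≤ u) (hv : 1 ≤ v) (hw : 1 ≤ w) (h : Arr u v w M) :
    0 ≤ M := by
  rcases h with ⟨_, h⟩ | ⟨_, h⟩ | ⟨_, h⟩
  · rw [h]; exact Real.log_nonneg (by exact_mod_cast hw)
  · rw [h]; exact Real.log_nonneg (by exact_mod_cast hu)
  · rw [h]; exact Real.log_nonneg (by exact_mod_cast hv)

lemma gapR (h : Stmt_Gap2r) (h' : Stmt_Gap22r) : ∃ C : ℝ, 1 ≤ C ∧ GapR C := by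
  obtain ⟨C₁, hC1, g1⟩ := h
  obtain ⟨C₂, hC2, g2⟩ := h'
  refine ⟨C₁ + C₂, by linarith, ?_⟩
  intro p k A B c r M hp hk hA hB hc hco hr hrB heq
  have hM : 0 ≤ M := arr_nonneg (Nat.one_le_pow _ _ hA) (Nat.one_le_pow _ _ hB)
    (Nat.one_le_pow _ _ hc) heq
  have hlk : 0 ≤ Real.log k := Real.log_nonneg (by exact_mod_cast (by omega : 1 ≤ k))
  unfold Arr at heq
  push_cast at heq
  by_cases hp3 : 3 ≤ p
  · refine (g1 p k A B c r M hp hp3 hk hA hB hc hco hr hrB heq).trans ?_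
    apply mul_le_mul_of_nonneg_right _ hM
    apply mul_le_mul_of_nonneg_right _ (by positivity)
    apply mul_le_mul_of_nonneg_right (by linarith) (by positivity)
  · have hp2 : p = 2 := by have := hp.two_le; omega
    subst hp2
    have h5 := g2 k A B c r M hk hA hB hc hco hr hrB heq
    have h6 : C₂ * r ^ 3 * (Real.log k ^ 3 / k) * M ≤
        (C₁ + C₂) * r ^ 3 * ((2 : ℕ) * Real.log k ^ 3 / k) * M := by
      apply mul_le_mul_of_nonneg_right _ hM
      have h7 : 0 ≤ Real.log k ^ 3 / k := by positivity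
      have h8 : ((2 : ℕ) : ℝ) * Real.log k ^ 3 / k = 2 * (Real.log k ^ 3 / k) := by
        push_cast; ring
      rw [h8]
      have h9 : 0 ≤ (r : ℝ) ^ 3 * (Real.log k ^ 3 / k) := by positivity
      nlinarith
    push_cast at h5 h6 ⊢
    linarith

/-- the trivial bound -/
lemma triv_bound {b n r : ℕ} (hb : 1 ≤ b) (hr : r.Prime) :
    n * (padicValNat r b) * Real.log r ≤ Real.log ((b ^ n : ℕ) : ℝ) := by
  have h1 : r ^ (padicValNat r b) ∣ b := pow_padicValNat_dvd
  have h2 : r ^ (padicValNat r b) ≤ b := Nat.le_of_dvd hb h1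
  have h3 : Real.log ((r ^ (padicValNat r b) : ℕ) : ℝ) ≤ Real.log b := by
    apply Real.log_le_log
    · exact_mod_cast Nat.one_le_pow _ _ hr.pos
    · exact_mod_cast h2
  push_cast at h3 ⊢
  rw [Real.log_pow] at h3 ⊢
  rw [mul_assoc]
  exact mul_le_mul_of_nonneg_left h3 (Nat.cast_nonneg _)

/-- combination of the two `r`-adic bounds -/
lemma combineR {C₂ C₃ D LM r : ℝ} {P Q : ℕ} (hP : 3 ≤ P) (hQ : 1 ≤ Q) (hr : 1 ≤ r) (h2 : 1 ≤ C₂)
    (h3 : 1 ≤ C₃) (hLM : 0 ≤ LM) (hD : D ≤ LM)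
    (ha : D ≤ C₂ * r ^ 3 * (Q * Real.log P ^ 3 / P) * LM)
    (hb : C₃ * (r * (3 * Real.log P)) ^ 10 ≤ Q → D ≤ C₃ * r ^ 14 * (Real.log P ^ 13 / Q) * LM) :
    D ≤ (C₂ + 3 ^ 10 * C₃) * r ^ 14 * dl P * LM := by
  have hl := log3_ge_one hP
  unfold dl
  set l := Real.log P with hldef
  have hP0 : (0 : ℝ) < P := by exact_mod_cast (by omega : 0 < P)
  have hQ0 : (0 : ℝ) < Q := by exact_mod_cast (by omega : 0 < Q)
  set s := Real.sqrt P with hs
  have hs0 : 0 < s := Real.sqrt_pos.mpr hP0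
  have hss : s * s = P := Real.mul_self_sqrt hP0.le
  have hl0 : 0 < l := by linarith
  have hr0 : 0 < r := by linarith
  have hr3 : r ^ 3 ≤ r ^ 14 := pow_le_pow_right₀ hr (by norm_num)
  have hr10 : r ^ 10 ≤ r ^ 14 := pow_le_pow_right₀ hr (by norm_num)
  have hrr : 0 ≤ r ^ 14 * (l ^ 8 / s) := by positivity
  have hadd : ∀ c : ℝ, c ≤ C₂ + 3 ^ 10 * C₃ → D ≤ c * (r ^ 14 * (l ^ 8 / s)) * LM →
      D ≤ (C₂ + 3 ^ 10 * C₃) * r ^ 14 * (l ^ 8 / s) * LM := by
    intro c hc h
    refine h.trans ?_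
    rw [mul_assoc (C₂ + 3 ^ 10 * C₃)]
    apply mul_le_mul_of_nonneg_right _ hLM
    exact mul_le_mul_of_nonneg_right hc hrr
  by_cases hQs : (Q : ℝ) ≤ s * l ^ 5
  · apply hadd C₂ (by nlinarith)
    refine ha.trans ?_
    apply mul_le_mul_of_nonneg_right _ hLM
    rw [mul_assoc]
    apply mul_le_mul_of_nonneg_left _ (by linarith)
    apply mul_le_mul hr3 _ (by positivity) (by positivity)
    rw [← hss, div_le_div_iff₀ (by positivity) hs0]
    calc (Q : ℝ) * l ^ 3 * s ≤ (s * l ^ 5) * l ^ 3 * s := by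
          apply mul_le_mul_of_nonneg_right _ hs0.le
          exact mul_le_mul_of_nonneg_right hQs (by positivity)
      _ = l ^ 8 * (s * s) := by ring
  · rw [not_le] at hQs
    by_cases hc : C₃ * (r * (3 * l)) ^ 10 ≤ Q
    · apply hadd C₃ (by nlinarith)
      refine (hb hc).trans ?_
      apply mul_le_mul_of_nonneg_right _ hLM
      rw [mul_assoc]
      apply mul_le_mul_of_nonneg_left _ (by linarith)
      apply mul_le_mul_of_nonneg_left _ (by positivity)
      rw [div_le_div_iff₀ hQ0 hs0]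
      calc l ^ 13 * s = l ^ 8 * (s * l ^ 5) := by ring
        _ ≤ l ^ 8 * Q := by
          apply mul_le_mul_of_nonneg_left hQs.le (by positivity)
    · rw [not_le] at hc
      apply hadd (3 ^ 10 * C₃) (by linarith)
      have h5 : s ≤ 3 ^ 10 * C₃ * (r ^ 14 * l ^ 8) := by
        have h6 : s * l ^ 5 ≤ (3 ^ 10 * C₃ * (r ^ 10 * l ^ 5)) * l ^ 5 := by
          calc s * l ^ 5 ≤ C₃ * (r * (3 * l)) ^ 10 := by linarith
            _ = (3 ^ 10 * C₃ * (r ^ 10 * l ^ 5)) * l ^ 5 := by ring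
        have h7 : s ≤ 3 ^ 10 * C₃ * (r ^ 10 * l ^ 5) := le_of_mul_le_mul_right h6 (by positivity)
        refine h7.trans ?_
        apply mul_le_mul_of_nonneg_left _ (by positivity)
        exact mul_le_mul hr10 (pow_le_pow_right₀ hl (by norm_num)) (by positivity) (by positivity)
      have h8 : 1 ≤ 3 ^ 10 * C₃ * (r ^ 14 * (l ^ 8 / s)) := by
        have h9 : 3 ^ 10 * C₃ * (r ^ 14 * (l ^ 8 / s)) = (3 ^ 10 * C₃ * (r ^ 14 * l ^ 8)) / s := by
          ring
        rw [h9, le_div_iff₀ hs0]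
        linarith
      calc D ≤ LM := hD
        _ = 1 * LM := (one_mul _).symm
        _ ≤ _ := mul_le_mul_of_nonneg_right h8 hLM

/-- equal primes: high powers of `r` dividing `X ^ p - Y ^ p` -/
lemma eq_radic {r p V : ℕ} {X Y : ℤ} (hr : r.Prime) (hp : p.Prime) (hp3 : 3 ≤ p)
    (hX : ¬ (r : ℤ) ∣ X) (hY : ¬ (r : ℤ) ∣ Y) (h : (r : ℤ) ^ V ∣ X ^ p - Y ^ p) :
    p < r ∨ (r : ℤ) ^ V ∣ p * (X - Y) := by
  rcases Nat.eq_zero_or_pos V with hV | hV
  · right; rw [hV, pow_zero]; exact one_dvd _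
  have : Fact r.Prime := ⟨hr⟩
  have hrZ : Prime (r : ℤ) := Nat.prime_iff_prime_int.mp hr
  have hgeo := geom_sum₂_mul X Y p
  by_cases hxy : (r : ℤ) ∣ X - Y
  · right
    by_cases hrp : r = p
    · subst hrp
      have h1 := emultiplicity_geom_sum₂_eq_one hrZ (hr.odd_of_ne_two (by omega)) hxy hX
      have h1' : emultiplicity (r : ℤ) (∑ i ∈ range r, X ^ i * Y ^ (r - 1 - i)) = ((1 : ℕ) : ℕ∞) := by
        rw [h1]; rfl
      obtain ⟨h2, h3⟩ := emultiplicity_eq_coe.mp h1'
      rw [pow_one] at h2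
      obtain ⟨t, ht⟩ := h2
      have h4 : ¬ (r : ℤ) ∣ t := by
        rintro ⟨t', ht'⟩
        apply h3
        refine ⟨t', ?_⟩
        rw [ht, ht']; ring
      have h5 : IsCoprime ((r : ℤ) ^ V) t :=
        IsCoprime.pow_left ((hrZ.irreducible.coprime_iff_not_dvd).mpr h4)
      rw [← hgeo, ht] at h
      have h6 : (r : ℤ) ^ V ∣ t * (r * (X - Y)) := by
        have : (r : ℤ) * t * (X - Y) = t * (r * (X - Y)) := by ring
        rwa [this] at h
      exact h5.dvd_of_dvd_mul_left h6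
    · have hn : ¬ (r : ℤ) ∣ (p : ℤ) := by
        intro h1
        have h2 : r ∣ p := by exact_mod_cast h1
        exact hrp ((Nat.prime_dvd_prime_iff_eq hr hp).mp h2)
      have h1 := not_dvd_geom_sum₂ hrZ hxy hX hn
      have h5 : IsCoprime ((r : ℤ) ^ V) (∑ i ∈ range p, X ^ i * Y ^ (p - 1 - i)) :=
        IsCoprime.pow_left ((hrZ.irreducible.coprime_iff_not_dvd).mpr h1)
      rw [← hgeo] at h
      exact Dvd.dvd.mul_left (h5.dvd_of_dvd_mul_left h) _
  · left
    have h1 : (r : ℤ) ∣ X ^ p - Y ^ p := (dvd_pow_self _ (by omega)).trans h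
    have hx0 : (X : ZMod r) ≠ 0 := by
      rw [Ne, ZMod.intCast_zmod_eq_zero_iff_dvd]; exact hX
    have hy0 : (Y : ZMod r) ≠ 0 := by
      rw [Ne, ZMod.intCast_zmod_eq_zero_iff_dvd]; exact hY
    have h2 : (X : ZMod r) ^ p = (Y : ZMod r) ^ p := by
      have h3 : ((X ^ p - Y ^ p : ℤ) : ZMod r) = 0 := by
        rw [ZMod.intCast_zmod_eq_zero_iff_dvd]; exact h1
      push_cast at h3
      exact sub_eq_zero.mp h3
    have h3 : (X : ZMod r) ≠ (Y : ZMod r) := by
      intro h4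
      apply hxy
      rw [← ZMod.intCast_zmod_eq_zero_iff_dvd]
      push_cast
      rw [h4, sub_self]
    have h4 : ((X : ZMod r) / Y) ^ p = 1 := by
      rw [div_pow, h2, div_self (pow_ne_zero _ hy0)]
    have h5 : (X : ZMod r) / Y ≠ 1 := by
      intro h6
      rw [div_eq_one_iff_eq hy0] at h6
      exact h3 h6
    have : Fact p.Prime := ⟨hp⟩
    have h6 : orderOf ((X : ZMod r) / Y) = p := orderOf_eq_prime h4 h5
    have h7 : orderOf ((X : ZMod r) / Y) ∣ r - 1 :=
      ZMod.orderOf_dvd_card_sub_one (div_ne_zero hx0 hy0)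
    rw [h6] at h7
    have h8 := Nat.le_of_dvd (by have := hr.two_le; omega) h7
    have := hr.two_le
    omega

lemma arr_swap {u v w : ℕ} {M : ℝ} (h : Arr u v w M) : Arr w v u M := by
  rcases h with ⟨h, h'⟩ | ⟨h, h'⟩ | ⟨h, h'⟩
  · exact Or.inr (Or.inl ⟨by omega, h'⟩)
  · exact Or.inl ⟨by omega, h'⟩
  · exact Or.inr (Or.inr ⟨by omega, h'⟩)

/-- every term is at most the largest one -/
lemma arr_le {u v w : ℕ} {M : ℝ} (hu : 1 ≤ u) (hv : 1 ≤ v) (hw : 1 ≤ w) (h : Arr u v w M) :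
    Real.log u ≤ M ∧ Real.log v ≤ M ∧ Real.log w ≤ M := by
  have hu0 : (0 : ℝ) < u := by exact_mod_cast hu
  have hv0 : (0 : ℝ) < v := by exact_mod_cast hv
  have hw0 : (0 : ℝ) < w := by exact_mod_cast hw
  rcases h with ⟨h, h'⟩ | ⟨h, h'⟩ | ⟨h, h'⟩
  · rw [h']
    exact ⟨Real.log_le_log hu0 (by exact_mod_cast (by omega : u ≤ w)),
      Real.log_le_log hv0 (by exact_mod_cast (by omega : v ≤ w)), le_rfl⟩
  · rw [h']
    exact ⟨le_rfl, Real.log_le_log hv0 (by exact_mod_cast (by omega : v ≤ u)),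
      Real.log_le_log hw0 (by exact_mod_cast (by omega : w ≤ u))⟩
  · rw [h']
    exact ⟨Real.log_le_log hu0 (by exact_mod_cast (by omega : u ≤ v)), le_rfl,
      Real.log_le_log hw0 (by exact_mod_cast (by omega : w ≤ v))⟩

lemma dl_lower {p : ℕ} (hp3 : 3 ≤ p) : 1 / (p : ℝ) ≤ dl p := by
  have hp1 : (1 : ℝ) ≤ p := by exact_mod_cast (by omega : 1 ≤ p)
  unfold dl
  have h1 := log3_ge_one hp3
  have h2 : Real.sqrt p ≤ p := by
    rw [Real.sqrt_le_left (by linarith)]
    nlinarith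
  have h3 : 0 < Real.sqrt p := Real.sqrt_pos.mpr (by linarith)
  exact div_le_div₀ (by positivity) (one_le_pow₀ h1) h3 h2

/-- equal primes, numerical part -/
lemma eq_num {p r W : ℕ} {V M : ℝ} (hp3 : 3 ≤ p) (hr : 2 ≤ r) (hW : 2 ≤ W)
    (hM : M = p * Real.log W) (h : V ≤ Real.log (2 * p * W)) :
    V ≤ 3 * (r : ℝ) ^ 14 * dl p * M := by
  have hl := log3_ge_one hp3
  have hp0 : (0 : ℝ) < p := by exact_mod_cast (by omega : 0 < p)
  have hp1 : (3 : ℝ) ≤ p := by exact_mod_cast hp3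
  have hW0 : (0 : ℝ) < W := by exact_mod_cast (by omega : 0 < W)
  have hlW : Real.log 2 ≤ Real.log W :=
    Real.log_le_log (by norm_num) (by exact_mod_cast hW)
  have hl2 : 0.69 ≤ Real.log 2 := by linarith [Real.log_two_gt_d9]
  have hl2' : Real.log 2 ≤ 0.7 := by linarith [Real.log_two_lt_d9]
  have h1 : Real.log (2 * p * W) = Real.log 2 + Real.log p + Real.log W := by
    rw [Real.log_mul (by positivity) hW0.ne', Real.log_mul (by norm_num) hp0.ne']
  rw [h1] at h
  have hM0 : 0 ≤ M := by rw [hM]; have : 0 ≤ Real.log W := by linarith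
                         positivity
  have hs3 : 1.7 ≤ Real.sqrt p := by
    apply Real.le_sqrt_of_sq_le
    norm_num
    linarith
  have hs0 : 0 < Real.sqrt p := by linarith
  have hss : Real.sqrt p * Real.sqrt p = p := Real.mul_self_sqrt hp0.le
  -- `dl p * M ≥ log 2 * √p * l^8`
  have h2 : dl p * M ≥ 1.17 * Real.log p := by
    rw [hM]
    unfold dl
    have h3 : Real.log p ^ 8 / Real.sqrt p * (p * Real.log W) =
        Real.log p ^ 8 * Real.sqrt p * Real.log W := by
      rw [div_mul_eq_mul_div, div_eq_iff hs0.ne']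
      calc Real.log p ^ 8 * (p * Real.log W)
          = Real.log p ^ 8 * ((Real.sqrt p * Real.sqrt p) * Real.log W) := by rw [hss]
        _ = _ := by ring
    rw [h3]
    have h4 : Real.log p ≤ Real.log p ^ 8 := by
      calc Real.log p = Real.log p ^ 1 := (pow_one _).symm
        _ ≤ _ := pow_le_pow_right₀ hl (by norm_num)
    have h5 : 1.7 * 0.69 ≤ Real.sqrt p * Real.log W :=
      mul_le_mul hs3 (by linarith) (by norm_num) hs0.le
    have h6 : Real.log p * (1.7 * 0.69) ≤ Real.log p ^ 8 * (Real.sqrt p * Real.log W) :=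
      mul_le_mul h4 h5 (by norm_num) (by positivity)
    nlinarith
  have h7 : Real.log W ≤ dl p * M := by
    have h8 := mul_le_mul_of_nonneg_right (dl_lower hp3) hM0
    have h9 : 1 / (p : ℝ) * M = Real.log W := by
      rw [hM]; field_simp
    linarith
  have h10 : V ≤ 3 * (dl p * M) := by nlinarith
  have h11 : (1 : ℝ) ≤ (r : ℝ) ^ 14 := one_le_pow₀ (by exact_mod_cast (by omega : 1 ≤ r))
  have h12 : 0 ≤ 3 * (dl p * M) := by
    have := mul_nonneg (dl_nonneg p) hM0
    linarith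
  calc V ≤ 3 * (dl p * M) := h10
    _ = 1 * (3 * (dl p * M)) := (one_mul _).symm
    _ ≤ (r : ℝ) ^ 14 * (3 * (dl p * M)) := mul_le_mul_of_nonneg_right h11 h12
    _ = _ := by ring

/-- equal primes -/
lemma eqR {p A B c r : ℕ} {M : ℝ} (hp : p.Prime) (hA : 1 ≤ A) (hB : 1 ≤ B)
    (hc : 1 ≤ c) (hco : Nat.Coprime A B) (hr : r.Prime) (hrB : r ∣ B)
    (heq : Arr (A ^ p) (B ^ p) (c ^ p) M) :
    p * (padicValNat r B) * Real.log r ≤ 50 * (r : ℝ) ^ 14 * dl p * M := by
  have hM : 0 ≤ M := arr_nonneg (Nat.one_le_pow _ _ hA) (Nat.one_le_pow _ _ hB)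
    (Nat.one_le_pow _ _ hc) heq
  have htriv : p * (padicValNat r B) * Real.log r ≤ M :=
    (triv_bound hB hr).trans (arr_le (Nat.one_le_pow _ _ hA) (Nat.one_le_pow _ _ hB)
      (Nat.one_le_pow _ _ hc) heq).2.1
  have hr1 : (1 : ℝ) ≤ r := by exact_mod_cast hr.pos
  have hr14 : (1 : ℝ) ≤ (r : ℝ) ^ 14 := one_le_pow₀ hr1
  have hM1 : 0 ≤ (r : ℝ) ^ 14 * dl p * M :=
    mul_nonneg (mul_nonneg (by positivity) (dl_nonneg p)) hM
  by_cases hp3 : 3 ≤ p
  swap
  · have hp2 : p = 2 := by have := hp.two_le; omega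
    rw [hp2] at htriv hM1 ⊢
    refine htriv.trans ?_
    have h1 := dl_two
    have h2 : 1 ≤ 50 * (r : ℝ) ^ 14 * dl 2 := by
      calc (1 : ℝ) ≤ 50 * dl 2 := h1
        _ = 1 * (50 * dl 2) := (one_mul _).symm
        _ ≤ (r : ℝ) ^ 14 * (50 * dl 2) := mul_le_mul_of_nonneg_right hr14 (by linarith)
        _ = _ := by ring
    calc M = 1 * M := (one_mul _).symm
      _ ≤ _ := mul_le_mul_of_nonneg_right h2 hM
  · have hrA : ¬ r ∣ A := by
      intro h1
      have h2 : r ∣ Nat.gcd A B := Nat.dvd_gcd h1 hrB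
      rw [hco] at h2
      exact hr.one_lt.ne' (Nat.dvd_one.mp h2)
    have hrB1 : r ∣ B ^ p := hrB.trans (dvd_pow_self _ (by omega))
    have hrc : ¬ r ∣ c := by
      intro h1
      have h2 : r ∣ c ^ p := h1.trans (dvd_pow_self _ (by omega))
      apply hrA
      apply hr.dvd_of_dvd_pow (n := p)
      rcases heq with ⟨h, _⟩ | ⟨h, _⟩ | ⟨h, _⟩
      · rw [← h] at h2
        exact (Nat.dvd_add_left hrB1).mp h2
      · rw [← h]; exact dvd_add hrB1 h2
      · rw [← h] at hrB1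
        exact (Nat.dvd_add_right h2).mp hrB1
    set ν := padicValNat r B with hν
    have hdvd : (r : ℤ) ^ (p * ν) ∣ (B : ℤ) ^ p := by
      have h1 : r ^ ν ∣ B := pow_padicValNat_dvd
      have h2 : (r ^ ν) ^ p ∣ B ^ p := pow_dvd_pow_of_dvd h1 p
      rw [← pow_mul, mul_comm ν p] at h2
      exact_mod_cast h2
    have hrA' : ¬ (r : ℤ) ∣ (A : ℤ) := by
      intro h; exact hrA (by exact_mod_cast h)
    have hrc' : ¬ (r : ℤ) ∣ (c : ℤ) := by
      intro h; exact hrc (by exact_mod_cast h)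
    have hpr : p < r → p * (ν : ℝ) * Real.log r ≤ 50 * (r : ℝ) ^ 14 * dl p * M := by
      intro hlt
      refine htriv.trans ?_
      have h1 := dl_lower hp3
      have hp0 : (0 : ℝ) < p := by exact_mod_cast (by omega : 0 < p)
      have h2 : (p : ℝ) ≤ r := by exact_mod_cast hlt.le
      have h3 : (r : ℝ) ≤ (r : ℝ) ^ 14 := le_self_pow₀ hr1 (by norm_num)
      have h4 : 1 ≤ (r : ℝ) ^ 14 * dl p := by
        calc (1 : ℝ) = p * (1 / p) := by field_simp
          _ ≤ (r : ℝ) ^ 14 * dl p := mul_le_mul (by linarith) h1 (by positivity) (by positivity)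
      have h5 : 1 * M ≤ (r : ℝ) ^ 14 * dl p * M := mul_le_mul_of_nonneg_right h4 hM
      nlinarith
    have hfin : ∀ W : ℕ, 2 ≤ W → M = p * Real.log W → r ^ (p * ν) ≤ 2 * p * W →
        p * (ν : ℝ) * Real.log r ≤ 50 * (r : ℝ) ^ 14 * dl p * M := by
      intro W hW hMW hle
      have h1 : p * (ν : ℝ) * Real.log r ≤ Real.log (2 * p * W) := by
        have h2 : Real.log ((r ^ (p * ν) : ℕ) : ℝ) ≤ Real.log ((2 * p * W : ℕ) : ℝ) := by
          apply Real.log_le_log
          · exact_mod_cast Nat.one_le_pow _ _ hr.pos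
          · exact_mod_cast hle
        push_cast at h2
        rw [Real.log_pow] at h2
        push_cast at h2
        exact h2
      have h3 := eq_num (r := r) hp3 hr.two_le hW hMW h1
      nlinarith
    rcases heq with ⟨h, h'⟩ | ⟨h, h'⟩ | ⟨h, h'⟩
    · -- `A ^ p + B ^ p = c ^ p`
      have h1 : (r : ℤ) ^ (p * ν) ∣ (c : ℤ) ^ p - (A : ℤ) ^ p := by
        have : (c : ℤ) ^ p - (A : ℤ) ^ p = (B : ℤ) ^ p := by
          have : ((A ^ p + B ^ p : ℕ) : ℤ) = ((c ^ p : ℕ) : ℤ) := by rw [h]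
          push_cast at this; linarith
        rw [this]; exact hdvd
      have hAc : A < c := by
        by_contra hcc
        rw [not_lt] at hcc
        have h5 := Nat.pow_le_pow_left hcc p
        have h6 := Nat.one_le_pow p _ hB
        omega
      rcases eq_radic hr hp hp3 hrc' hrA' h1 with h2 | h2
      · exact hpr h2
      · apply hfin c (by omega) (by rw [h']; push_cast; rw [Real.log_pow])
        have h3 : (r : ℤ) ^ (p * ν) ≤ p * ((c : ℤ) - A) := by
          apply Int.le_of_dvd _ h2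
          have : (0 : ℤ) < (c : ℤ) - A := by omega
          have hpp : (0 : ℤ) < p := by omega
          positivity
        have h4 : (p : ℤ) * ((c : ℤ) - A) ≤ 2 * p * c := by nlinarith
        exact_mod_cast h3.trans h4
    · -- `B ^ p + c ^ p = A ^ p`
      have h1 : (r : ℤ) ^ (p * ν) ∣ (A : ℤ) ^ p - (c : ℤ) ^ p := by
        have : (A : ℤ) ^ p - (c : ℤ) ^ p = (B : ℤ) ^ p := by
          have : ((B ^ p + c ^ p : ℕ) : ℤ) = ((A ^ p : ℕ) : ℤ) := by rw [h]
          push_cast at this; linarith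
        rw [this]; exact hdvd
      have hAc : c < A := by
        by_contra hcc
        rw [not_lt] at hcc
        have h5 := Nat.pow_le_pow_left hcc p
        have h6 := Nat.one_le_pow p _ hB
        omega
      rcases eq_radic hr hp hp3 hrA' hrc' h1 with h2 | h2
      · exact hpr h2
      · apply hfin A (by omega) (by rw [h']; push_cast; rw [Real.log_pow])
        have h3 : (r : ℤ) ^ (p * ν) ≤ p * ((A : ℤ) - c) := by
          apply Int.le_of_dvd _ h2
          have : (0 : ℤ) < (A : ℤ) - c := by omega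
          have hpp : (0 : ℤ) < p := by omega
          positivity
        have h4 : (p : ℤ) * ((A : ℤ) - c) ≤ 2 * p * A := by nlinarith
        exact_mod_cast h3.trans h4
    · -- `c ^ p + A ^ p = B ^ p`
      have hodd : Odd p := hp.odd_of_ne_two (by omega)
      have h1 : (r : ℤ) ^ (p * ν) ∣ (c : ℤ) ^ p - (-(A : ℤ)) ^ p := by
        have : (c : ℤ) ^ p - (-(A : ℤ)) ^ p = (B : ℤ) ^ p := by
          rw [hodd.neg_pow]
          have : ((c ^ p + A ^ p : ℕ) : ℤ) = ((B ^ p : ℕ) : ℤ) := by rw [h]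
          push_cast at this; linarith
        rw [this]; exact hdvd
      have hcB : c < B := by
        by_contra hcc
        rw [not_lt] at hcc
        have h5 := Nat.pow_le_pow_left hcc p
        have h6 := Nat.one_le_pow p _ hA
        omega
      have hAB : A < B := by
        by_contra hcc
        rw [not_lt] at hcc
        have h5 := Nat.pow_le_pow_left hcc p
        have h6 := Nat.one_le_pow p _ hc
        omega
      rcases eq_radic hr hp hp3 hrc' (by rw [Int.dvd_neg]; exact hrA') h1 with h2 | h2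
      · exact hpr h2
      · apply hfin B (by omega) (by rw [h']; push_cast; rw [Real.log_pow])
        have h3 : (r : ℤ) ^ (p * ν) ≤ p * ((c : ℤ) - -A) := by
          apply Int.le_of_dvd _ h2
          have : (0 : ℤ) < (c : ℤ) - -A := by omega
          have hpp : (0 : ℤ) < p := by omega
          positivity
        have h4 : (p : ℤ) * ((c : ℤ) - -A) ≤ 2 * p * B := by nlinarith
        exact_mod_cast h3.trans h4

/-- different primes -/
lemma neR {C₂ : ℝ} (hC2 : 1 ≤ C₂) (hg : GapR C₂) (hS : Stmt_Stbr) : ∃ C : ℝ, 1 ≤ C ∧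
    ∀ (p q x y z r : ℕ) (M : ℝ), p.Prime → q.Prime → p ≠ q → 1 ≤ x → 1 ≤ y → 1 ≤ z →
    Nat.Coprime x z → Nat.Coprime y z → r.Prime → r ∣ z →
    Arr (x ^ p) (z ^ (p * q)) (y ^ q) M →
    p * q * (padicValNat r z) * Real.log r ≤ C * (r : ℝ) ^ 14 * dl (max p q) * M := by
  obtain ⟨C₃, hC3, g3⟩ := hS
  refine ⟨C₂ + 3 ^ 10 * C₃, by linarith, ?_⟩
  intro p q x y z r M hp hq hpq hx hy hz hxz hyz hr hrz heq
  have hp2 := hp.two_le
  have hq2 := hq.two_le
  have hx1 : 1 ≤ x ^ p := Nat.one_le_pow _ _ hx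
  have hy1 : 1 ≤ y ^ q := Nat.one_le_pow _ _ hy
  have hz1 : 1 ≤ z ^ (p * q) := Nat.one_le_pow _ _ hz
  have hzp : z ^ (p * q) = (z ^ p) ^ q := by rw [← pow_mul]
  have hzq : z ^ (p * q) = (z ^ q) ^ p := by rw [← pow_mul, mul_comm]
  have hM : 0 ≤ M := arr_nonneg hx1 hz1 hy1 heq
  have htriv : p * q * (padicValNat r z) * Real.log r ≤ M := by
    have h1 := (triv_bound (n := p * q) hz hr).trans (arr_le hx1 hz1 hy1 heq).2.1
    push_cast at h1
    exact h1
  have hr1 : (1 : ℝ) ≤ r := by exact_mod_cast hr.pos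
  have hr2 : (2 : ℝ) ≤ r := by exact_mod_cast hr.two_le
  have hz0 : z ≠ 0 := by omega
  have hl := log3_ge_one (P := max p q) (by omega)
  apply combineR (Q := min p q) (by omega) (by omega) hr1 hC2 hC3 hM htriv
  · rcases lt_or_gt_of_ne hpq with hlt | hlt
    · have hmax : max p q = q := by omega
      have hmin : min p q = p := by omega
      rw [hmax, hmin]
      have heq' : Arr (x ^ p) ((z ^ q) ^ p) (y ^ q) M := by rw [← hzq]; exact heq
      have h6 := hg p q x (z ^ q) y r M hp (by omega) hx (Nat.one_le_pow _ _ hz) hy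
        (Nat.Coprime.pow_right _ hxz) hr (hrz.trans (dvd_pow_self _ (by omega))) heq'
      have : Fact r.Prime := ⟨hr⟩
      rw [padicValNat.pow] at h6
      push_cast at h6
      calc (p : ℝ) * q * (padicValNat r z) * Real.log r
          = p * (q * (padicValNat r z)) * Real.log r := by ring
        _ ≤ _ := h6
    · have hmax : max p q = p := by omega
      have hmin : min p q = q := by omega
      rw [hmax, hmin]
      have heq' : Arr (y ^ q) ((z ^ p) ^ q) (x ^ p) M := by rw [← hzp]; exact arr_swap heq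
      have h6 := hg q p y (z ^ p) x r M hq (by omega) hy (Nat.one_le_pow _ _ hz) hx
        (Nat.Coprime.pow_right _ hyz) hr (hrz.trans (dvd_pow_self _ (by omega))) heq'
      have : Fact r.Prime := ⟨hr⟩
      rw [padicValNat.pow] at h6
      push_cast at h6
      calc (p : ℝ) * q * (padicValNat r z) * Real.log r
          = q * (p * (padicValNat r z)) * Real.log r := by ring
        _ ≤ _ := h6
  · intro hc
    by_cases h3 : 3 ≤ min p q
    · have hp3 : 3 ≤ p := by omega
      have hq3 : 3 ≤ q := by omega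
      have h5 := log_pq_le hp3 hq3
      have h6 : 0 ≤ 1 + Real.log ((p : ℝ) * q) := by
        have h7 : (1 : ℝ) ≤ (p : ℝ) * q := by
          exact_mod_cast Nat.one_le_iff_ne_zero.mpr (Nat.mul_ne_zero (by omega) (by omega))
        have := Real.log_nonneg h7
        linarith
      have h7 : C₃ * (r * (1 + Real.log (p * q))) ^ 10 ≤
          C₃ * (r * (3 * Real.log ((max p q : ℕ) : ℝ))) ^ 10 := by
        apply mul_le_mul_of_nonneg_left _ (by linarith)
        apply pow_le_pow_left₀ (by positivity)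
        exact mul_le_mul_of_nonneg_left h5 (by linarith)
      have h8 : ((min p q : ℕ) : ℝ) ≤ p := by exact_mod_cast min_le_left _ _
      have h9 : ((min p q : ℕ) : ℝ) ≤ q := by exact_mod_cast min_le_right _ _
      have heq' := heq
      unfold Arr at heq'
      push_cast at heq'
      exact g3 p q x y z r M hp hq hpq hp3 hq3 hx hy hz hxz hyz hr hrz heq' (by linarith)
        (by linarith)
    · exfalso
      have h4 : min p q = 2 := by omega
      rw [h4] at hc
      have h5 : (6 : ℝ) ≤ r * (3 * Real.log ((max p q : ℕ) : ℝ)) := by nlinarith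
      have h6 : (6 : ℝ) ^ 10 ≤ (r * (3 * Real.log ((max p q : ℕ) : ℝ))) ^ 10 :=
        pow_le_pow_left₀ (by norm_num) h5 10
      have h7 : (1 : ℝ) * 6 ^ 10 ≤ C₃ * (r * (3 * Real.log ((max p q : ℕ) : ℝ))) ^ 10 :=
        mul_le_mul hC3 h6 (by norm_num) (by linarith)
      norm_num at h7 hc
      linarith

/-- sum over the primes dividing `d` -/
lemma sum_part {b n d u y : ℕ} {E : ℝ} (hb : 1 ≤ b) (hd : b ^ n = d * u)
    (hy : ∀ r : ℕ, r.Prime → r ∣ d → r ≤ y) (hE : 0 ≤ E)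
    (h : ∀ r : ℕ, r.Prime → r ∣ d → n * (padicValNat r b) * Real.log r ≤ E) :
    Real.log d ≤ y * E := by
  have hbn : b ^ n ≠ 0 := pow_ne_zero _ (by omega)
  have hd0 : d ≠ 0 := by
    intro h0; rw [h0, zero_mul] at hd; exact hbn hd
  have hu0 : u ≠ 0 := by
    intro h0; rw [h0, mul_zero] at hd; exact hbn hd
  rw [Real.log_nat_eq_sum_factorization]
  unfold Finsupp.sum
  have h1 : ∀ r ∈ d.factorization.support, (d.factorization r : ℝ) * Real.log r ≤ E := by
    intro r hr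
    rw [Nat.support_factorization, Nat.mem_primeFactors] at hr
    obtain ⟨hrp, hrd, _⟩ := hr
    refine le_trans ?_ (h r hrp hrd)
    apply mul_le_mul_of_nonneg_right _ (Real.log_nonneg (by exact_mod_cast hrp.pos))
    have h2 : d.factorization r ≤ (b ^ n).factorization r := by
      rw [hd, Nat.factorization_mul hd0 hu0]
      simp
    rw [Nat.factorization_pow] at h2
    simp only [Finsupp.smul_apply, smul_eq_mul] at h2
    rw [← Nat.factorization_def b hrp]
    exact_mod_cast h2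
  refine (Finset.sum_le_sum h1).trans ?_
  rw [Finset.sum_const, nsmul_eq_mul]
  apply mul_le_mul_of_nonneg_right _ hE
  have h3 : d.factorization.support.card ≤ (Finset.Icc 1 y).card := by
    apply Finset.card_le_card
    intro r hr
    rw [Nat.support_factorization, Nat.mem_primeFactors] at hr
    rw [Finset.mem_Icc]
    exact ⟨hr.1.pos, hy r hr.1 hr.2.1⟩
  rw [Nat.card_Icc] at h3
  exact_mod_cast (by omega : d.factorization.support.card ≤ y)

/-- from the power form back to logarithms -/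
lemma log_form {M t : ℕ} {c : ℝ} (hM : 1 ≤ M) (ht : 1 ≤ t) (h : (M : ℝ) ^ (1 - c) ≤ (t : ℝ)) :
    Real.log M - Real.log t ≤ c * Real.log M := by
  have hM0 : (0 : ℝ) < M := by exact_mod_cast hM
  have ht0 : (0 : ℝ) < t := by exact_mod_cast ht
  have h1 : Real.log ((M : ℝ) ^ (1 - c)) ≤ Real.log t :=
    Real.log_le_log (Real.rpow_pos_of_pos hM0 _) h
  rw [Real.log_rpow hM0] at h1
  linarith

/-- **Theorem Y** -/
theorem finy (h1 : Stmt_Y1a) (h2 : Stmt_Y2a) (hg : Stmt_Gap2r) (hg' : Stmt_Gap22r)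
    (hs : Stmt_Stbr) : Stmt_Y := by
  obtain ⟨C₁, g1⟩ := h1
  obtain ⟨C₂, g2⟩ := h2
  obtain ⟨C₃, hC3, g3⟩ := gapR hg hg'
  obtain ⟨C₄, hC4, g4⟩ := neR hC3 g3 hs
  refine ⟨|C₁| + |C₂| + (C₃ + C₄ + 50), ?_⟩
  intro a b c m n k p y d u η ha hb hc hab hm hn hk heq hp hpm hpn hη hy hd hdy
  have ham : 1 ≤ a ^ m := Nat.one_le_pow _ _ ha
  have hbn : 1 ≤ b ^ n := Nat.one_le_pow _ _ hb
  have hck : 1 ≤ c ^ k := Nat.one_le_pow _ _ hc
  have hd1 : 1 ≤ d := by
    rcases Nat.eq_zero_or_pos d with h0 | h0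
    · rw [h0, zero_mul] at hd; omega
    · exact h0
  have hu1 : 1 ≤ u := by
    rcases Nat.eq_zero_or_pos u with h0 | h0
    · rw [h0, mul_zero] at hd; omega
    · exact h0
  obtain ⟨M₀, hM₀⟩ : ∃ M₀, M₀ = max (a ^ m) (max (b ^ n) (c ^ k)) := ⟨_, rfl⟩
  have hM1 : 1 ≤ M₀ := by omega
  have hLM : 0 ≤ Real.log M₀ := Real.log_nonneg (by exact_mod_cast hM1)
  have harr : Arr (a ^ m) (b ^ n) (c ^ k) (Real.log M₀) := by
    rcases heq with h | h | h
    · refine Or.inl ⟨h, ?_⟩
      rw [show M₀ = c ^ k by omega]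
    · refine Or.inr (Or.inl ⟨h, ?_⟩)
      rw [show M₀ = a ^ m by omega]
    · refine Or.inr (Or.inr ⟨h, ?_⟩)
      rw [show M₀ = b ^ n by omega]
  have hcop : Nat.Coprime (a ^ m) (b ^ n) := Nat.Coprime.pow _ _ hab
  have hall : Nat.Coprime (b ^ n) (c ^ k) := by
    rcases heq with h | h | h
    · exact (cop_all h (Or.inl hcop)).2.2
    · exact (cop_all h (Or.inr (Or.inl hcop.symm))).1
    · exact (cop_all h (Or.inr (Or.inr hcop))).2.1.symm
  have hlk : 0 ≤ Real.log k := Real.log_nonneg (by exact_mod_cast (by omega : 1 ≤ k))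
  have hη0 : 0 ≤ η := by
    rcases hη with h | ⟨q, _, _, _, h⟩
    · rw [h]; positivity
    · rw [h]; exact dl_nonneg _
  have hηM : 0 ≤ η * Real.log M₀ := mul_nonneg hη0 hLM
  have hy1 : (1 : ℝ) ≤ y := by exact_mod_cast hy
  -- the Archimedean part
  have harc : Real.log M₀ - Real.log ((min (a ^ m) (b ^ n) : ℕ) : ℝ) ≤
      (|C₁| + |C₂|) * (η * Real.log M₀) := by
    rcases hη with h | ⟨q, hq, hqn, hqk, h⟩
    · have h5 := g1 a b c m n k p ha hb hc hab hk hp hm hn hpm hpn heq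
      rw [← hM₀, ← h] at h5
      have h6 := log_form hM1 (by omega) h5
      have h7 : C₁ * η * Real.log M₀ ≤ |C₁| * (η * Real.log M₀) := by
        rw [mul_assoc]
        exact mul_le_mul_of_nonneg_right (le_abs_self _) hηM
      have h8 : 0 ≤ |C₂| * (η * Real.log M₀) := mul_nonneg (abs_nonneg _) hηM
      linarith
    · have h5 := g2 a b c m n k p q ha hb hc hab hp hq hm hn (by omega) hpm hpn hqn hqk heq
      rw [← hM₀, ← h] at h5
      have h6 := log_form hM1 (by omega) h5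
      have h7 : C₂ * η * Real.log M₀ ≤ |C₂| * (η * Real.log M₀) := by
        rw [mul_assoc]
        exact mul_le_mul_of_nonneg_right (le_abs_self _) hηM
      have h8 : 0 ≤ |C₁| * (η * Real.log M₀) := mul_nonneg (abs_nonneg _) hηM
      have h9 : Real.log ((min (a ^ m) (min (b ^ n) (c ^ k)) : ℕ) : ℝ) ≤
          Real.log ((min (a ^ m) (b ^ n) : ℕ) : ℝ) := by
        apply Real.log_le_log
        · exact_mod_cast (by omega : 0 < min (a ^ m) (min (b ^ n) (c ^ k)))
        · exact_mod_cast (by omega : min (a ^ m) (min (b ^ n) (c ^ k)) ≤ min (a ^ m) (b ^ n))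
      linarith
  -- the `r`-adic part
  have hrad : ∀ r : ℕ, r.Prime → r ∣ d → n * (padicValNat r b) * Real.log r ≤
      (C₃ + C₄ + 50) * (y : ℝ) ^ 14 * (η * Real.log M₀) := by
    intro r hr hrd
    have hry : (r : ℝ) ≤ y := by exact_mod_cast hdy r hr hrd
    have hr1 : (1 : ℝ) ≤ r := by exact_mod_cast hr.pos
    have hrb : r ∣ b := by
      apply hr.dvd_of_dvd_pow (n := n)
      rw [hd]; exact hrd.mul_right u
    have hb0 : b ≠ 0 := by omega
    have : Fact r.Prime := ⟨hr⟩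
    have hr14 : (r : ℝ) ^ 14 ≤ (y : ℝ) ^ 14 := pow_le_pow_left₀ (by linarith) hry 14
    have hr3 : (r : ℝ) ^ 3 ≤ (y : ℝ) ^ 14 :=
      (pow_le_pow_right₀ hr1 (by norm_num)).trans hr14
    have key : ∀ (C' R : ℝ), 0 ≤ C' → C' ≤ C₃ + C₄ + 50 → R ≤ (y : ℝ) ^ 14 →
        C' * R * (η * Real.log M₀) ≤ (C₃ + C₄ + 50) * (y : ℝ) ^ 14 * (η * Real.log M₀) := by
      intro C' R h0 h5 h6
      apply mul_le_mul_of_nonneg_right _ hηM
      calc C' * R ≤ C' * (y : ℝ) ^ 14 := mul_le_mul_of_nonneg_left h6 h0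
        _ ≤ _ := mul_le_mul_of_nonneg_right h5 (by positivity)
    rcases hη with h | ⟨q, hq, hqn, hqk, h⟩
    · obtain ⟨m', rfl⟩ := hpm
      obtain ⟨n', rfl⟩ := hpn
      have e1 : a ^ (p * m') = (a ^ m') ^ p := by rw [← pow_mul, mul_comm]
      have e2 : b ^ (p * n') = (b ^ n') ^ p := by rw [← pow_mul, mul_comm]
      have hn' : n' ≠ 0 := by
        rintro rfl; omega
      rw [e1, e2] at harr
      have h5 := g3 p k (a ^ m') (b ^ n') c r _ hp hk (Nat.one_le_pow _ _ ha)
        (Nat.one_le_pow _ _ hb) hc (Nat.Coprime.pow _ _ hab) hr (hrb.trans (dvd_pow_self _ hn')) harr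
      rw [padicValNat.pow, ← h] at h5
      push_cast at h5 ⊢
      calc (p : ℝ) * n' * (padicValNat r b) * Real.log r
          = p * (n' * (padicValNat r b)) * Real.log r := by ring
        _ ≤ C₃ * r ^ 3 * η * Real.log M₀ := h5
        _ = C₃ * r ^ 3 * (η * Real.log M₀) := by ring
        _ ≤ _ := key C₃ _ (by linarith) (by linarith) hr3
    · by_cases hpq : p = q
      · subst hpq
        obtain ⟨m', rfl⟩ := hpm
        obtain ⟨n', rfl⟩ := hpn
        obtain ⟨k', rfl⟩ := hqk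
        have e1 : a ^ (p * m') = (a ^ m') ^ p := by rw [← pow_mul, mul_comm]
        have e2 : b ^ (p * n') = (b ^ n') ^ p := by rw [← pow_mul, mul_comm]
        have e3 : c ^ (p * k') = (c ^ k') ^ p := by rw [← pow_mul, mul_comm]
        have hn' : n' ≠ 0 := by
          rintro rfl; omega
        rw [e1, e2, e3] at harr
        have h5 := eqR hp (Nat.one_le_pow _ _ ha) (Nat.one_le_pow _ _ hb) (Nat.one_le_pow _ _ hc)
          (Nat.Coprime.pow _ _ hab) hr (hrb.trans (dvd_pow_self _ hn')) harr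
        have h' : η = dl p := by rw [h, max_self]; rfl
        rw [padicValNat.pow, ← h'] at h5
        push_cast at h5 ⊢
        calc (p : ℝ) * n' * (padicValNat r b) * Real.log r
            = p * (n' * (padicValNat r b)) * Real.log r := by ring
          _ ≤ 50 * r ^ 14 * η * Real.log M₀ := h5
          _ = 50 * r ^ 14 * (η * Real.log M₀) := by ring
          _ ≤ _ := key 50 _ (by norm_num) (by linarith) hr14
      · have hdvd : p * q ∣ n :=
          Nat.Coprime.mul_dvd_of_dvd_of_dvd ((Nat.coprime_primes hp hq).mpr hpq) hpn hqn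
        obtain ⟨m', rfl⟩ := hpm
        obtain ⟨n', rfl⟩ := hdvd
        obtain ⟨k', rfl⟩ := hqk
        have e1 : a ^ (p * m') = (a ^ m') ^ p := by rw [← pow_mul, mul_comm]
        have e2 : b ^ (p * q * n') = (b ^ n') ^ (p * q) := by rw [← pow_mul, mul_comm]
        have e3 : c ^ (q * k') = (c ^ k') ^ q := by rw [← pow_mul, mul_comm]
        have hn' : n' ≠ 0 := by
          rintro rfl; omega
        rw [e1, e2, e3] at harr
        rw [e2, e3] at hall
        have hpos : 0 < p * q := Nat.mul_pos hp.pos hq.pos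
        have hzy : Nat.Coprime (b ^ n') (c ^ k') := by
          rwa [Nat.coprime_pow_left_iff hpos, Nat.coprime_pow_right_iff hq.pos] at hall
        have h5 := g4 p q (a ^ m') (c ^ k') (b ^ n') r _ hp hq hpq (Nat.one_le_pow _ _ ha)
          (Nat.one_le_pow _ _ hc) (Nat.one_le_pow _ _ hb) (Nat.Coprime.pow _ _ hab) hzy.symm hr
          (hrb.trans (dvd_pow_self _ hn')) harr
        have h' : η = dl (max p q) := h
        rw [padicValNat.pow, ← h'] at h5
        push_cast at h5 ⊢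
        calc (p : ℝ) * q * n' * (padicValNat r b) * Real.log r
            = p * q * (n' * (padicValNat r b)) * Real.log r := by ring
          _ ≤ C₄ * r ^ 14 * η * Real.log M₀ := h5
          _ = C₄ * r ^ 14 * (η * Real.log M₀) := by ring
          _ ≤ _ := key C₄ _ (by linarith) (by linarith) hr14
  have hE0 : 0 ≤ (C₃ + C₄ + 50) * (y : ℝ) ^ 14 * (η * Real.log M₀) :=
    mul_nonneg (by positivity) hηM
  have hlogd := sum_part hb hd hdy hE0 hrad
  have hlogu : Real.log ((b ^ n : ℕ) : ℝ) = Real.log d + Real.log u := by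
    rw [hd]
    push_cast
    exact Real.log_mul (by exact_mod_cast (by omega : d ≠ 0)) (by exact_mod_cast (by omega : u ≠ 0))
  have hmin1 : Real.log ((min (a ^ m) (b ^ n) : ℕ) : ℝ) ≤ Real.log ((b ^ n : ℕ) : ℝ) := by
    apply Real.log_le_log
    · exact_mod_cast (by omega : 0 < min (a ^ m) (b ^ n))
    · exact_mod_cast min_le_right _ _
  have hmin2 : Real.log ((min (a ^ m) (b ^ n) : ℕ) : ℝ) ≤ Real.log ((a ^ m : ℕ) : ℝ) := by
    apply Real.log_le_log
    · exact_mod_cast (by omega : 0 < min (a ^ m) (b ^ n))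
    · exact_mod_cast min_le_left _ _
  have hy15 : (1 : ℝ) ≤ (y : ℝ) ^ 15 := one_le_pow₀ hy1
  have habs : 0 ≤ |C₁| + |C₂| := add_nonneg (abs_nonneg _) (abs_nonneg _)
  have hKA : (|C₁| + |C₂|) * (η * Real.log M₀) ≤
      (|C₁| + |C₂|) * (y : ℝ) ^ 15 * (η * Real.log M₀) := by
    apply mul_le_mul_of_nonneg_right _ hηM
    exact le_mul_of_one_le_right habs hy15
  have hKR : (y : ℝ) * ((C₃ + C₄ + 50) * (y : ℝ) ^ 14 * (η * Real.log M₀)) =
      (C₃ + C₄ + 50) * (y : ℝ) ^ 15 * (η * Real.log M₀) := by ring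
  have hKR0 : 0 ≤ (C₃ + C₄ + 50) * (y : ℝ) ^ 15 * (η * Real.log M₀) :=
    mul_nonneg (by positivity) hηM
  have htot : (|C₁| + |C₂| + (C₃ + C₄ + 50)) * (y : ℝ) ^ 15 * η * Real.log M₀ =
      (|C₁| + |C₂|) * (y : ℝ) ^ 15 * (η * Real.log M₀) +
      (C₃ + C₄ + 50) * (y : ℝ) ^ 15 * (η * Real.log M₀) := by ring
  rw [← hM₀]
  apply pow_form hM1 (by omega)
  rw [htot]
  rcases le_total (a ^ m) u with hle | hle
  · rw [min_eq_left hle]
    linarith
  · rw [min_eq_right hle]
    rw [hKR] at hlogd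
    linarith

end Pool.Agent.Work.MP_2738db_nt_Y.helper16
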