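import Pool.Agent.Work.MP_2738db_nt_Y.Interface4
import Pool.Agent.Work.MP_2738db_nt_Y_helper16.FINY

set_option autoImplicit false

namespace Pool.Agent.Work.MP_2738db_nt_Y.helper16

open Finset

lemma arr_comm {u v w : ℕ} {M : ℝ} (h : Arr u v w M) : Arr v u w M := by
  rcases h with ⟨h, h'⟩ | ⟨h, h'⟩ | ⟨h, h'⟩
  · exact Or.inl ⟨by omega, h'⟩
  · exact Or.inr (Or.inr ⟨by omega, h'⟩)
  · exact Or.inr (Or.inl ⟨by omega, h'⟩)

/-- from the two kinds of bounds to the conclusion -/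
lemma wrap {M₀ β N d u y : ℕ} {K₁ K₂ η : ℝ} (hM1 : 1 ≤ M₀) (hβ : 1 ≤ β) (hd : β ^ N = d * u)
    (hy : 1 ≤ y) (hdy : ∀ r : ℕ, r.Prime → r ∣ d → r ≤ y) (hK1 : 0 ≤ K₁) (hK2 : 0 ≤ K₂)
    (hη : 0 ≤ η)
    (harc : Real.log M₀ - Real.log ((β ^ N : ℕ) : ℝ) ≤ K₁ * (η * Real.log M₀))
    (hrad : ∀ r : ℕ, r.Prime → r ∣ d → r ∣ β → (r : ℝ) ^ 14 ≤ (y : ℝ) ^ 14 →
      N * (padicValNat r β) * Real.log r ≤ K₂ * (r : ℝ) ^ 14 * (η * Real.log M₀)) :
    (M₀ : ℝ) ^ (1 - (K₁ + K₂) * (y : ℝ) ^ 15 * η) ≤ (u : ℝ) := by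
  have hLM : 0 ≤ Real.log M₀ := Real.log_nonneg (by exact_mod_cast hM1)
  have hηM : 0 ≤ η * Real.log M₀ := mul_nonneg hη hLM
  have hy1 : (1 : ℝ) ≤ y := by exact_mod_cast hy
  have hβN : 1 ≤ β ^ N := Nat.one_le_pow _ _ hβ
  have hd1 : 1 ≤ d := by
    rcases Nat.eq_zero_or_pos d with h0 | h0
    · rw [h0, zero_mul] at hd; omega
    · exact h0
  have hu1 : 1 ≤ u := by
    rcases Nat.eq_zero_or_pos u with h0 | h0
    · rw [h0, mul_zero] at hd; omega
    · exact h0
  have hE0 : 0 ≤ K₂ * (y : ℝ) ^ 14 * (η * Real.log M₀) := mul_nonneg (by positivity) hηM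
  have hlogd := sum_part (E := K₂ * (y : ℝ) ^ 14 * (η * Real.log M₀)) hβ hd hdy hE0 (by
    intro r hr hrd
    have hry : (r : ℝ) ≤ y := by exact_mod_cast hdy r hr hrd
    have hr14 : (r : ℝ) ^ 14 ≤ (y : ℝ) ^ 14 := pow_le_pow_left₀ (Nat.cast_nonneg _) hry 14
    have hrβ : r ∣ β := by
      apply hr.dvd_of_dvd_pow (n := N)
      rw [hd]; exact hrd.mul_right u
    refine (hrad r hr hrd hrβ hr14).trans ?_
    apply mul_le_mul_of_nonneg_right _ hηM
    exact mul_le_mul_of_nonneg_left hr14 hK2)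
  have hlogu : Real.log ((β ^ N : ℕ) : ℝ) = Real.log d + Real.log u := by
    rw [hd]
    push_cast
    exact Real.log_mul (by exact_mod_cast (by omega : d ≠ 0)) (by exact_mod_cast (by omega : u ≠ 0))
  have hy15 : (1 : ℝ) ≤ (y : ℝ) ^ 15 := one_le_pow₀ hy1
  have hKA : K₁ * (η * Real.log M₀) ≤ K₁ * (y : ℝ) ^ 15 * (η * Real.log M₀) := by
    apply mul_le_mul_of_nonneg_right _ hηM
    exact le_mul_of_one_le_right hK1 hy15
  have hKR : (y : ℝ) * (K₂ * (y : ℝ) ^ 14 * (η * Real.log M₀)) =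
      K₂ * (y : ℝ) ^ 15 * (η * Real.log M₀) := by ring
  have htot : (K₁ + K₂) * (y : ℝ) ^ 15 * η * Real.log M₀ =
      K₁ * (y : ℝ) ^ 15 * (η * Real.log M₀) + K₂ * (y : ℝ) ^ 15 * (η * Real.log M₀) := by ring
  apply pow_form hM1 hu1
  rw [htot]
  rw [hKR] at hlogd
  linarith

/-- the `r`-part of `x ^ p` -/
lemma cbrAll (h : Stmt_Cbr) (h' : Stmt_Cbr2) : ∃ C : ℝ, 1 ≤ C ∧
    ∀ (p q x y z r : ℕ) (M : ℝ), p.Prime → q.Prime → p ≠ q → 1 ≤ x → 1 ≤ y → 1 ≤ z →
    Nat.Coprime x z → Nat.Coprime x y → Nat.Coprime y z → r.Prime → r ∣ x →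
    Arr (x ^ p) (z ^ (p * q)) (y ^ q) M →
    p * (padicValNat r x) * Real.log r ≤ C * (r : ℝ) ^ 14 * dl (max p q) * M := by
  obtain ⟨C₁, hC1, g1⟩ := h
  obtain ⟨C₂, hC2, g2⟩ := h'
  refine ⟨C₁ + C₂, by linarith, ?_⟩
  intro p q x y z r M hp hq hpq hx hy hz hxz hxy hyz hr hrx heq
  have hM : 0 ≤ M := arr_nonneg (Nat.one_le_pow _ _ hx) (Nat.one_le_pow _ _ hz)
    (Nat.one_le_pow _ _ hy) heq
  have hp2 := hp.two_le
  have hq2 := hq.two_le
  have hr1 : (1 : ℝ) ≤ r := by exact_mod_cast hr.pos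
  have hr14 : (r : ℝ) ^ 10 ≤ (r : ℝ) ^ 14 := pow_le_pow_right₀ hr1 (by norm_num)
  have hP3 : 3 ≤ max p q := by omega
  have hc1 := comp1 hP3
  have hl : 0 ≤ Real.log ((max p q : ℕ) : ℝ) := by linarith [log3_ge_one hP3]
  have key : ∀ C' : ℝ, 0 ≤ C' → C' ≤ C₁ + C₂ →
      C' * (r : ℝ) ^ 10 * (Real.log ((max p q : ℕ) : ℝ) ^ 3 / ((max p q : ℕ) : ℝ)) * M ≤
      (C₁ + C₂) * (r : ℝ) ^ 14 * dl (max p q) * M := by
    intro C' h0 h5
    apply mul_le_mul_of_nonneg_right _ hM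
    apply mul_le_mul _ hc1 (by positivity) (by positivity)
    exact mul_le_mul h5 hr14 (by positivity) (by linarith)
  unfold Arr at heq
  push_cast at heq
  by_cases hq3 : 3 ≤ q
  · exact (g1 p q x y z r M hp hq hpq hq3 hx hy hz hxz hxy hyz hr hrx heq).trans
      (key C₁ (by linarith) (by linarith))
  · have hq' : q = 2 := by omega
    subst hq'
    have hmax : max p 2 = p := by omega
    have h5 := g2 p x y z r M hp (by omega) hx hy hz hxz hxy hyz hr hrx heq
    have h6 := key C₂ (by linarith) (by linarith)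
    rw [hmax] at h6 ⊢
    exact h5.trans h6

lemma arr_right {u v w : ℕ} {M : ℝ} (h : Arr u v w M) : Arr u w v M := by
  rcases h with ⟨h, h'⟩ | ⟨h, h'⟩ | ⟨h, h'⟩
  · exact Or.inr (Or.inr ⟨by omega, h'⟩)
  · exact Or.inr (Or.inl ⟨by omega, h'⟩)
  · exact Or.inl ⟨by omega, h'⟩

/-- **Theorem YY** -/
theorem finyy (h1 : Stmt_Y1a) (h2 : Stmt_Y2a) (hg : Stmt_Gap2r) (hg' : Stmt_Gap22r)
    (hs : Stmt_Stbr) (hcb : Stmt_Cbr) (hcb2 : Stmt_Cbr2) : Stmt_YY := by
  obtain ⟨C₁, g1⟩ := h1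
  obtain ⟨C₂, g2⟩ := h2
  obtain ⟨C₃, hC3, g3⟩ := gapR hg hg'
  obtain ⟨C₄, hC4, g4⟩ := neR hC3 g3 hs
  obtain ⟨C₅, hC5, g5⟩ := cbrAll hcb hcb2
  refine ⟨(|C₁| + |C₂|) + (C₃ + C₄ + C₅ + 50), ?_⟩
  intro a b c m n k p y t d u η ha hb hc hab hm hn hk heq hp hpm hpn hη hy hd hdy
  have ham : 1 ≤ a ^ m := Nat.one_le_pow _ _ ha
  have hbn : 1 ≤ b ^ n := Nat.one_le_pow _ _ hb
  have hck : 1 ≤ c ^ k := Nat.one_le_pow _ _ hc
  obtain ⟨M₀, hM₀⟩ : ∃ M₀, M₀ = max (a ^ m) (max (b ^ n) (c ^ k)) := ⟨_, rfl⟩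
  have hM1 : 1 ≤ M₀ := by omega
  have hLM : 0 ≤ Real.log M₀ := Real.log_nonneg (by exact_mod_cast hM1)
  have harr : Arr (a ^ m) (b ^ n) (c ^ k) (Real.log M₀) := by
    rcases heq with h | h | h
    · refine Or.inl ⟨h, ?_⟩
      rw [show M₀ = c ^ k by omega]
    · refine Or.inr (Or.inl ⟨h, ?_⟩)
      rw [show M₀ = a ^ m by omega]
    · refine Or.inr (Or.inr ⟨h, ?_⟩)
      rw [show M₀ = b ^ n by omega]
  have hcop : Nat.Coprime (a ^ m) (b ^ n) := Nat.Coprime.pow _ _ hab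
  have hall : Nat.Coprime (b ^ n) (c ^ k) ∧ Nat.Coprime (a ^ m) (c ^ k) := by
    rcases heq with h | h | h
    · have := cop_all h (Or.inl hcop)
      exact ⟨this.2.2, this.2.1⟩
    · have := cop_all h (Or.inr (Or.inl hcop.symm))
      exact ⟨this.1, this.2.2.symm⟩
    · have := cop_all h (Or.inr (Or.inr hcop))
      exact ⟨this.2.1.symm, this.1.symm⟩
  obtain ⟨hall1, hall2⟩ := hall
  have hk0 : 0 < k := by omega
  have hac : Nat.Coprime a c := by
    rwa [Nat.coprime_pow_left_iff hm, Nat.coprime_pow_right_iff hk0] at hall2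
  have hbc : Nat.Coprime b c := by
    rwa [Nat.coprime_pow_left_iff hn, Nat.coprime_pow_right_iff hk0] at hall1
  have hlk : 0 ≤ Real.log k := Real.log_nonneg (by exact_mod_cast (by omega : 1 ≤ k))
  have hK1 : 0 ≤ |C₁| + |C₂| := add_nonneg (abs_nonneg _) (abs_nonneg _)
  have hK2 : 0 ≤ C₃ + C₄ + C₅ + 50 := by linarith
  rw [← hM₀]
  rcases hη with ⟨ht, hη⟩ | ⟨ht, q, hq, hqn, hqk, hη⟩
  · -- two logarithms
    have hη0 : 0 ≤ η := by rw [hη]; positivity
    have hηM : 0 ≤ η * Real.log M₀ := mul_nonneg hη0 hLM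
    have harc : ∀ s : ℕ, (s = a ^ m ∨ s = b ^ n) →
        Real.log M₀ - Real.log (s : ℝ) ≤ (|C₁| + |C₂|) * (η * Real.log M₀) := by
      intro s hs'
      have h5 := g1 a b c m n k p ha hb hc hab hk hp hm hn hpm hpn heq
      rw [← hM₀, ← hη] at h5
      have h6 := log_form hM1 (by omega) h5
      have h7 : C₁ * η * Real.log M₀ ≤ |C₁| * (η * Real.log M₀) := by
        rw [mul_assoc]
        exact mul_le_mul_of_nonneg_right (le_abs_self _) hηM
      have h8 : 0 ≤ |C₂| * (η * Real.log M₀) := mul_nonneg (abs_nonneg _) hηM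
      have h9 : Real.log ((min (a ^ m) (b ^ n) : ℕ) : ℝ) ≤ Real.log (s : ℝ) := by
        apply Real.log_le_log
        · exact_mod_cast (by omega : 0 < min (a ^ m) (b ^ n))
        · have : min (a ^ m) (b ^ n) ≤ s := by omega
          exact_mod_cast this
      linarith
    have hbd : ∀ r : ℕ, 1 ≤ (r : ℝ) → C₃ * r ^ 3 * η * Real.log M₀ ≤
        (C₃ + C₄ + C₅ + 50) * (r : ℝ) ^ 14 * (η * Real.log M₀) := by
      intro r hr1
      have h5 : C₃ * r ^ 3 * η * Real.log M₀ = C₃ * (r : ℝ) ^ 3 * (η * Real.log M₀) := by ring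
      rw [h5]
      apply mul_le_mul_of_nonneg_right _ hηM
      exact mul_le_mul (by linarith) (pow_le_pow_right₀ hr1 (by norm_num)) (by positivity) hK2
    obtain ⟨m', rfl⟩ := hpm
    obtain ⟨n', rfl⟩ := hpn
    have hm' : m' ≠ 0 := by rintro rfl; omega
    have hn' : n' ≠ 0 := by rintro rfl; omega
    have e1 : a ^ (p * m') = (a ^ m') ^ p := by rw [← pow_mul, mul_comm]
    have e2 : b ^ (p * n') = (b ^ n') ^ p := by rw [← pow_mul, mul_comm]
    rcases ht with rfl | rfl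
    · apply wrap hM1 ha hd hy hdy hK1 hK2 hη0 (harc _ (Or.inl rfl))
      intro r hr hrd hra _
      have : Fact r.Prime := ⟨hr⟩
      have hr1 : (1 : ℝ) ≤ r := by exact_mod_cast hr.pos
      have harr' := arr_comm harr
      rw [e1, e2] at harr'
      have h5 := g3 p k (b ^ n') (a ^ m') c r _ hp hk (Nat.one_le_pow _ _ hb)
        (Nat.one_le_pow _ _ ha) hc (Nat.Coprime.pow _ _ hab.symm) hr
        (hra.trans (dvd_pow_self _ hm')) harr'
      rw [padicValNat.pow, ← hη] at h5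
      push_cast at h5 ⊢
      calc (p : ℝ) * m' * (padicValNat r a) * Real.log r
          = p * (m' * (padicValNat r a)) * Real.log r := by ring
        _ ≤ C₃ * r ^ 3 * η * Real.log M₀ := h5
        _ ≤ _ := hbd r hr1
    · apply wrap hM1 hb hd hy hdy hK1 hK2 hη0 (harc _ (Or.inr rfl))
      intro r hr hrd hrb _
      have : Fact r.Prime := ⟨hr⟩
      have hr1 : (1 : ℝ) ≤ r := by exact_mod_cast hr.pos
      have harr' := harr
      rw [e1, e2] at harr'
      have h5 := g3 p k (a ^ m') (b ^ n') c r _ hp hk (Nat.one_le_pow _ _ ha)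
        (Nat.one_le_pow _ _ hb) hc (Nat.Coprime.pow _ _ hab) hr
        (hrb.trans (dvd_pow_self _ hn')) harr'
      rw [padicValNat.pow, ← hη] at h5
      push_cast at h5 ⊢
      calc (p : ℝ) * n' * (padicValNat r b) * Real.log r
          = p * (n' * (padicValNat r b)) * Real.log r := by ring
        _ ≤ C₃ * r ^ 3 * η * Real.log M₀ := h5
        _ ≤ _ := hbd r hr1
  · -- three logarithms
    have hη' : η = dl (max p q) := hη
    have hη0 : 0 ≤ η := by rw [hη']; exact dl_nonneg _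
    have hηM : 0 ≤ η * Real.log M₀ := mul_nonneg hη0 hLM
    have harc : ∀ s : ℕ, (s = a ^ m ∨ s = b ^ n ∨ s = c ^ k) →
        Real.log M₀ - Real.log (s : ℝ) ≤ (|C₁| + |C₂|) * (η * Real.log M₀) := by
      intro s hs'
      have h5 := g2 a b c m n k p q ha hb hc hab hp hq hm hn (by omega) hpm hpn hqn hqk heq
      rw [← hM₀, ← hη] at h5
      have h6 := log_form hM1 (by omega) h5
      have h7 : C₂ * η * Real.log M₀ ≤ |C₂| * (η * Real.log M₀) := by
        rw [mul_assoc]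
        exact mul_le_mul_of_nonneg_right (le_abs_self _) hηM
      have h8 : 0 ≤ |C₁| * (η * Real.log M₀) := mul_nonneg (abs_nonneg _) hηM
      have h9 : Real.log ((min (a ^ m) (min (b ^ n) (c ^ k)) : ℕ) : ℝ) ≤ Real.log (s : ℝ) := by
        apply Real.log_le_log
        · exact_mod_cast (by omega : 0 < min (a ^ m) (min (b ^ n) (c ^ k)))
        · have : min (a ^ m) (min (b ^ n) (c ^ k)) ≤ s := by omega
          exact_mod_cast this
      linarith
    have hbd : ∀ (C' : ℝ) (r : ℕ), 0 ≤ C' → C' ≤ C₃ + C₄ + C₅ + 50 →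
        C' * (r : ℝ) ^ 14 * η * Real.log M₀ ≤
        (C₃ + C₄ + C₅ + 50) * (r : ℝ) ^ 14 * (η * Real.log M₀) := by
      intro C' r h0 h5
      have h6 : C' * (r : ℝ) ^ 14 * η * Real.log M₀ = C' * (r : ℝ) ^ 14 * (η * Real.log M₀) := by
        ring
      rw [h6]
      apply mul_le_mul_of_nonneg_right _ hηM
      exact mul_le_mul_of_nonneg_right h5 (by positivity)
    by_cases hpq : p = q
    · subst hpq
      obtain ⟨m', rfl⟩ := hpm
      obtain ⟨n', rfl⟩ := hpn
      obtain ⟨k', rfl⟩ := hqk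
      have hm' : m' ≠ 0 := by rintro rfl; omega
      have hn' : n' ≠ 0 := by rintro rfl; omega
      have hk' : k' ≠ 0 := by rintro rfl; omega
      have e1 : a ^ (p * m') = (a ^ m') ^ p := by rw [← pow_mul, mul_comm]
      have e2 : b ^ (p * n') = (b ^ n') ^ p := by rw [← pow_mul, mul_comm]
      have e3 : c ^ (p * k') = (c ^ k') ^ p := by rw [← pow_mul, mul_comm]
      have hh : η = dl p := by rw [hη', max_self]
      have harr' := harr
      rw [e1, e2, e3] at harr'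
      have hA := Nat.one_le_pow m' _ ha
      have hB := Nat.one_le_pow n' _ hb
      have hD := Nat.one_le_pow k' _ hc
      rcases ht with rfl | rfl | rfl
      · apply wrap hM1 ha hd hy hdy hK1 hK2 hη0 (harc _ (Or.inl rfl))
        intro r hr hrd hra _
        have : Fact r.Prime := ⟨hr⟩
        have h5 := eqR hp hB hA hD (Nat.Coprime.pow _ _ hab.symm) hr
          (hra.trans (dvd_pow_self _ hm')) (arr_comm harr')
        rw [padicValNat.pow, ← hh] at h5
        push_cast at h5 ⊢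
        calc (p : ℝ) * m' * (padicValNat r a) * Real.log r
            = p * (m' * (padicValNat r a)) * Real.log r := by ring
          _ ≤ 50 * r ^ 14 * η * Real.log M₀ := h5
          _ ≤ _ := hbd 50 r (by norm_num) (by linarith)
      · apply wrap hM1 hb hd hy hdy hK1 hK2 hη0 (harc _ (Or.inr (Or.inl rfl)))
        intro r hr hrd hrb _
        have : Fact r.Prime := ⟨hr⟩
        have h5 := eqR hp hA hB hD (Nat.Coprime.pow _ _ hab) hr
          (hrb.trans (dvd_pow_self _ hn')) harr'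
        rw [padicValNat.pow, ← hh] at h5
        push_cast at h5 ⊢
        calc (p : ℝ) * n' * (padicValNat r b) * Real.log r
            = p * (n' * (padicValNat r b)) * Real.log r := by ring
          _ ≤ 50 * r ^ 14 * η * Real.log M₀ := h5
          _ ≤ _ := hbd 50 r (by norm_num) (by linarith)
      · apply wrap hM1 hc hd hy hdy hK1 hK2 hη0 (harc _ (Or.inr (Or.inr rfl)))
        intro r hr hrd hrc _
        have : Fact r.Prime := ⟨hr⟩
        have h5 := eqR hp hA hD hB (Nat.Coprime.pow _ _ hac) hr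
          (hrc.trans (dvd_pow_self _ hk')) (arr_right harr')
        rw [padicValNat.pow, ← hh] at h5
        push_cast at h5 ⊢
        calc (p : ℝ) * k' * (padicValNat r c) * Real.log r
            = p * (k' * (padicValNat r c)) * Real.log r := by ring
          _ ≤ 50 * r ^ 14 * η * Real.log M₀ := h5
          _ ≤ _ := hbd 50 r (by norm_num) (by linarith)
    · have hdvd : p * q ∣ n :=
        Nat.Coprime.mul_dvd_of_dvd_of_dvd ((Nat.coprime_primes hp hq).mpr hpq) hpn hqn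
      obtain ⟨m', rfl⟩ := hpm
      obtain ⟨n', rfl⟩ := hdvd
      obtain ⟨k', rfl⟩ := hqk
      have hm' : m' ≠ 0 := by rintro rfl; omega
      have hn' : n' ≠ 0 := by rintro rfl; omega
      have hk' : k' ≠ 0 := by rintro rfl; omega
      have e1 : a ^ (p * m') = (a ^ m') ^ p := by rw [← pow_mul, mul_comm]
      have e2 : b ^ (p * q * n') = (b ^ n') ^ (p * q) := by rw [← pow_mul, mul_comm]
      have e3 : c ^ (q * k') = (c ^ k') ^ q := by rw [← pow_mul, mul_comm]
      have hA := Nat.one_le_pow m' _ ha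
      have hB := Nat.one_le_pow n' _ hb
      have hD := Nat.one_le_pow k' _ hc
      have harr' := harr
      rw [e1, e2, e3] at harr'
      have hxz : Nat.Coprime (a ^ m') (b ^ n') := Nat.Coprime.pow _ _ hab
      have hxy : Nat.Coprime (a ^ m') (c ^ k') := Nat.Coprime.pow _ _ hac
      have hyz : Nat.Coprime (c ^ k') (b ^ n') := Nat.Coprime.pow _ _ hbc.symm
      rcases ht with rfl | rfl | rfl
      · apply wrap hM1 ha hd hy hdy hK1 hK2 hη0 (harc _ (Or.inl rfl))
        intro r hr hrd hra _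
        have : Fact r.Prime := ⟨hr⟩
        have h5 := g5 p q (a ^ m') (c ^ k') (b ^ n') r _ hp hq hpq hA hD hB hxz hxy hyz hr
          (hra.trans (dvd_pow_self _ hm')) harr'
        rw [padicValNat.pow, ← hη'] at h5
        push_cast at h5 ⊢
        calc (p : ℝ) * m' * (padicValNat r a) * Real.log r
            = p * (m' * (padicValNat r a)) * Real.log r := by ring
          _ ≤ C₅ * r ^ 14 * η * Real.log M₀ := h5
          _ ≤ _ := hbd C₅ r (by linarith) (by linarith)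
      · apply wrap hM1 hb hd hy hdy hK1 hK2 hη0 (harc _ (Or.inr (Or.inl rfl)))
        intro r hr hrd hrb _
        have : Fact r.Prime := ⟨hr⟩
        have h5 := g4 p q (a ^ m') (c ^ k') (b ^ n') r _ hp hq hpq hA hD hB hxz hyz hr
          (hrb.trans (dvd_pow_self _ hn')) harr'
        rw [padicValNat.pow, ← hη'] at h5
        push_cast at h5 ⊢
        calc (p : ℝ) * q * n' * (padicValNat r b) * Real.log r
            = p * q * (n' * (padicValNat r b)) * Real.log r := by ring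
          _ ≤ C₄ * r ^ 14 * η * Real.log M₀ := h5
          _ ≤ _ := hbd C₄ r (by linarith) (by linarith)
      · apply wrap hM1 hc hd hy hdy hK1 hK2 hη0 (harc _ (Or.inr (Or.inr rfl)))
        intro r hr hrd hrc _
        have : Fact r.Prime := ⟨hr⟩
        have harr'' : Arr ((c ^ k') ^ q) ((b ^ n') ^ (q * p)) ((a ^ m') ^ p) (Real.log M₀) := by
          rw [mul_comm q p]; exact arr_swap harr'
        have h5 := g5 q p (c ^ k') (a ^ m') (b ^ n') r _ hq hp (Ne.symm hpq) hD hA hB hyz hxy.symm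
          hxz hr (hrc.trans (dvd_pow_self _ hk')) harr''
        rw [max_comm q p, padicValNat.pow, ← hη'] at h5
        push_cast at h5 ⊢
        calc (q : ℝ) * k' * (padicValNat r c) * Real.log r
            = q * (k' * (padicValNat r c)) * Real.log r := by ring
          _ ≤ C₅ * r ^ 14 * η * Real.log M₀ := h5
          _ ≤ _ := hbd C₅ r (by linarith) (by linarith)

end Pool.Agent.Work.MP_2738db_nt_Y.helper16
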