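import Pool.Agent.Work.MP_2738db_nt_Y.Interface5
import Pool.Agent.Work.MP_2738db_nt_Y_helper16.FINYY

set_option autoImplicit false

/-!
Final assembly of phase 5 of theorem Y.
-/

namespace Pool.Agent.Work.MP_2738db_nt_Y.helper16

open Finset

/-- an odd prime divisor or the divisor `4` -/
lemma exists_p {g : ℕ} (hg : 3 ≤ g) : ∃ p : ℕ, p ∣ g ∧ (p.Prime ∧ 3 ≤ p ∨ p = 4) := by
  by_cases h : ∃ p : ℕ, p ∣ g ∧ p.Prime ∧ 3 ≤ p
  · obtain ⟨p, h1, h2, h3⟩ := h
    exact ⟨p, h1, Or.inl ⟨h2, h3⟩⟩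
  · push Not at h
    refine ⟨4, ?_, Or.inr rfl⟩
    -- all prime factors are 2
    have h2 : g = 2 ^ g.primeFactorsList.length := by
      apply Nat.eq_prime_pow_of_unique_prime_dvd (by omega)
      intro d hd hdg
      have h3 := h d hdg hd
      have := hd.two_le
      omega
    obtain ⟨e, he⟩ : ∃ e, g = 2 ^ e := ⟨_, h2⟩
    have he2 : 2 ≤ e := by
      rcases Nat.lt_or_ge e 2 with h3 | h3
      · interval_cases e <;> simp at he <;> omega
      · exact h3
    rw [he, show (4 : ℕ) = 2 ^ 2 by norm_num]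
    exact pow_dvd_pow 2 he2

lemma r3all (h3a : Stmt_R3a) (h3b : Stmt_R3b) (h3c : Stmt_R3c) (h3d : Stmt_R3d) (h3e : Stmt_R3e)
    {p r : ℕ} {e : ℤ} (hp : p.Prime ∧ 3 ≤ p ∨ p = 4) (hr : r.Prime) (he : e = 1 ∨ e = -1) :
    R3 e p r := by
  rcases hp with ⟨hp, hp3⟩ | hp
  · by_cases hrp : r = p
    · subst hrp
      exact h3c r e hr hp3 he
    · by_cases h3 : p = 3
      · subst h3
        exact h3b r e hr hrp he
      · have h4 : p ≠ 4 := by
          rintro rfl
          exact absurd hp (by norm_num)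
        exact h3a p r e hp hr (by omega) hrp he
  · subst hp
    rcases he with he | he
    · subst he; exact h3e r hr
    · subst he; exact h3d r hr

/-- the logarithms -/
lemma log_num {k : ℕ} (hk : 2 ≤ k) : (1 + Real.log k) ^ 2 ≤ 12 * Real.log k ^ 3 := by
  have h1 : Real.log 2 ≤ Real.log k := Real.log_le_log (by norm_num) (by exact_mod_cast hk)
  have h2 := Real.log_two_gt_d9
  set x := Real.log k with hx
  have h3 : (0.69 : ℝ) ≤ x := by linarith
  have h4 : 1 ≤ x / 0.69 := by rw [le_div_iff₀ (by norm_num)]; linarith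
  have h5 : 1 + x ≤ 2.45 * x := by
    have h6 : x / 0.69 ≤ 1.45 * x := by
      rw [div_le_iff₀ (by norm_num)]
      nlinarith
    linarith
  have h6 : (1 + x) ^ 2 ≤ (2.45 * x) ^ 2 := by
    apply pow_le_pow_left₀ (by linarith) h5
  have h7 : (2.45 * x) ^ 2 ≤ 12 * x ^ 3 := by
    have h8 : 0 ≤ x ^ 2 := by positivity
    have h9 : x ^ 3 = x ^ 2 * x := by ring
    rw [h9]
    nlinarith
  linarith

/-- the third term -/
lemma third (hA : Stmt_A3) (h3a : Stmt_R3a) (h3b : Stmt_R3b) (h3c : Stmt_R3c) (h3d : Stmt_R3d)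
    (h3e : Stmt_R3e) {p : ℕ} (hp : p.Prime ∧ 3 ≤ p ∨ p = 4) (Y : ℕ) :
    ∃ C : ℝ, 0 ≤ C ∧ ∀ (x y c k d u M₀ : ℕ), 1 ≤ x → 1 ≤ y → Nat.Coprime x y → 2 ≤ k → 2 ≤ c →
      (x ^ p + y ^ p = c ^ k ∧ M₀ = c ^ k ∨ y ^ p + c ^ k = x ^ p ∧ M₀ = x ^ p ∨
        c ^ k + x ^ p = y ^ p ∧ M₀ = y ^ p) →
      1 ≤ Y → c ^ k = d * u → (∀ r : ℕ, r.Prime → r ∣ d → r ≤ Y) →
      (M₀ : ℝ) ^ (1 - C * (Real.log k ^ 3 / k)) ≤ (u : ℝ) := by
  have hex : ∀ r : ℕ, ∃ C : ℝ, 0 ≤ C ∧ (r.Prime → ∀ (e : ℤ), (e = 1 ∨ e = -1) →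
      ∀ (x y c k : ℕ), 1 ≤ x → 1 ≤ y → Nat.Coprime x y → 2 ≤ k → 2 ≤ c → r ∣ c →
      (x : ℤ) ^ p + e * (y : ℤ) ^ p = (c : ℤ) ^ k →
      (k : ℝ) * (padicValNat r c : ℝ) ≤ C * Real.log c * (1 + Real.log k) ^ 2) := by
    intro r
    by_cases hr : r.Prime
    · obtain ⟨C₁, h1, g1⟩ := r3all h3a h3b h3c h3d h3e (e := 1) hp hr (Or.inl rfl)
      obtain ⟨C₂, h2, g2⟩ := r3all h3a h3b h3c h3d h3e (e := -1) hp hr (Or.inr rfl)
      refine ⟨C₁ + C₂, by linarith, ?_⟩
      intro _ e he x y c k hx hy hxy hk hc hrc heq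
      have hlc : 0 ≤ Real.log c := Real.log_nonneg (by exact_mod_cast (by omega : 1 ≤ c))
      have h0 : 0 ≤ Real.log c * (1 + Real.log k) ^ 2 := by positivity
      rcases he with he | he
      · subst he
        have h3 := g1 x y c k hx hy hxy hk hc hrc heq
        have h4 : 0 ≤ C₂ * (Real.log c * (1 + Real.log k) ^ 2) := mul_nonneg (by linarith) h0
        linarith
      · subst he
        have h3 := g2 x y c k hx hy hxy hk hc hrc heq
        have h4 : 0 ≤ C₁ * (Real.log c * (1 + Real.log k) ^ 2) := mul_nonneg (by linarith) h0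
        linarith
    · exact ⟨0, le_rfl, fun h => absurd h hr⟩
  choose Cr hCr gr using hex
  obtain ⟨CA, hCA, gA⟩ := hA
  -- a common constant
  set E : ℝ := Real.exp ((p : ℝ) ^ CA) with hE
  have hE0 : 0 < E := Real.exp_pos _
  set F : ℝ := ∑ r ∈ Finset.range (Y + 1), Cr r * (1 + Real.log r) with hF
  have hF0 : 0 ≤ F := by
    apply Finset.sum_nonneg
    intro r _
    apply mul_nonneg (hCr r)
    have := Real.log_natCast_nonneg r
    linarith
  refine ⟨(12 * E + 12 * F) * (Y : ℝ) ^ 15, by positivity, ?_⟩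
  intro x y c k d u M₀ hx hy hxy hk hc heq hY hd hdy
  have hxp : 1 ≤ x ^ p := Nat.one_le_pow _ _ hx
  have hyp : 1 ≤ y ^ p := Nat.one_le_pow _ _ hy
  have hck : 1 ≤ c ^ k := Nat.one_le_pow _ _ (by omega)
  have hM1 : 1 ≤ M₀ := by rcases heq with ⟨_, h⟩ | ⟨_, h⟩ | ⟨_, h⟩ <;> omega
  have hckM : c ^ k ≤ M₀ := by rcases heq with ⟨_, h⟩ | ⟨_, h⟩ | ⟨_, h⟩ <;> omega
  have hk1 : (1 : ℝ) ≤ k := by exact_mod_cast (by omega : 1 ≤ k)
  have hkpos : (0 : ℝ) < k := by linarith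
  have hlk : 0 ≤ Real.log k := Real.log_nonneg hk1
  have hlc : 0 ≤ Real.log c := Real.log_nonneg (by exact_mod_cast (by omega : 1 ≤ c))
  have hc0 : (0 : ℝ) < c := by exact_mod_cast (by omega : 0 < c)
  have hLM : 0 ≤ Real.log M₀ := Real.log_nonneg (by exact_mod_cast hM1)
  have hkc : k * Real.log c ≤ Real.log M₀ := by
    have h1 : Real.log ((c ^ k : ℕ) : ℝ) ≤ Real.log M₀ :=
      Real.log_le_log (by exact_mod_cast hck) (by exact_mod_cast hckM)
    push_cast at h1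
    rwa [Real.log_pow] at h1
  set η : ℝ := Real.log k ^ 3 / k with hη
  have hη0 : 0 ≤ η := by positivity
  have hηM : 0 ≤ η * Real.log M₀ := mul_nonneg hη0 hLM
  -- the basic quantity
  have hbase : Real.log c * (1 + Real.log k) ^ 2 ≤ 12 * (η * Real.log M₀) := by
    have h1 : Real.log c ≤ Real.log M₀ / k := by
      rw [le_div_iff₀ hkpos]; linarith
    have h2 := log_num hk
    calc Real.log c * (1 + Real.log k) ^ 2 ≤ (Real.log M₀ / k) * (12 * Real.log k ^ 3) :=
          mul_le_mul h1 h2 (by positivity) (by positivity)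
      _ = _ := by rw [hη]; ring
  -- the sign
  obtain ⟨e, x', y', he, hx', hy', hxy', heq'⟩ : ∃ (e : ℤ) (x' y' : ℕ), (e = 1 ∨ e = -1) ∧
      1 ≤ x' ∧ 1 ≤ y' ∧ Nat.Coprime x' y' ∧ (x' : ℤ) ^ p + e * (y' : ℤ) ^ p = (c : ℤ) ^ k := by
    rcases heq with ⟨h, _⟩ | ⟨h, _⟩ | ⟨h, _⟩
    · exact ⟨1, x, y, Or.inl rfl, hx, hy, hxy, by rw [one_mul]; exact_mod_cast h⟩
    · refine ⟨-1, x, y, Or.inr rfl, hx, hy, hxy, ?_⟩
      have h1 : (y : ℤ) ^ p + (c : ℤ) ^ k = (x : ℤ) ^ p := by exact_mod_cast h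
      linarith
    · refine ⟨-1, y, x, Or.inr rfl, hy, hx, hxy.symm, ?_⟩
      have h1 : (c : ℤ) ^ k + (x : ℤ) ^ p = (y : ℤ) ^ p := by exact_mod_cast h
      linarith
  -- the Archimedean part
  have harc : Real.log M₀ - Real.log ((c ^ k : ℕ) : ℝ) ≤ 12 * E * (η * Real.log M₀) := by
    have key : ∀ x y : ℕ, 1 ≤ y → Nat.Coprime x y → y ^ p + c ^ k = x ^ p → M₀ = x ^ p →
        Real.log M₀ - Real.log ((c ^ k : ℕ) : ℝ) ≤ 12 * E * (η * Real.log M₀) := by
      intro x y hy hxy h hM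
      have hyx : y < x := by
        have h1 : y ^ p < x ^ p := by omega
        exact lt_of_pow_lt_pow_left₀ p (by omega) h1
      have h1 := gA p x y c k hp hy hyx hxy (by omega) hc h
      have hx0 : (0 : ℝ) < x := by exact_mod_cast (by omega : 0 < x)
      have h2 := Real.log_le_log (pow_pos hx0 p) h1
      rw [Real.log_mul (pow_ne_zero _ hc0.ne') (Real.exp_ne_zero _), Real.log_exp] at h2
      rw [hM]
      push_cast
      have h3 : E * Real.log c * (1 + Real.log k) ^ 2 ≤ 12 * E * (η * Real.log M₀) := by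
        have h4 := mul_le_mul_of_nonneg_left hbase hE0.le
        linarith
      rw [hM] at h3
      push_cast at h3
      linarith
    rcases heq with ⟨h, hM⟩ | ⟨h, hM⟩ | ⟨h, hM⟩
    · rw [hM, sub_self, ← hM]
      positivity
    · exact key x y hy hxy h hM
    · exact key y x hx hxy.symm (by omega) hM
  have hw := wrap (M₀ := M₀) (β := c) (N := k) (d := d) (u := u) (y := Y) (K₁ := 12 * E)
    (K₂ := 12 * F) (η := η) hM1 (by omega) hd hY hdy (by positivity) (by positivity) hη0 harc (by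
      intro r hr hrd hrc _
      have hry := hdy r hr hrd
      have h1 := gr r hr e he x' y' c k hx' hy' hxy' hk hc hrc heq'
      have hlr : 0 ≤ Real.log r := Real.log_natCast_nonneg r
      have hr1 : (1 : ℝ) ≤ (r : ℝ) ^ 14 := one_le_pow₀ (by exact_mod_cast hr.pos)
      have h2 : Cr r * (1 + Real.log r) ≤ F := by
        rw [hF]
        apply Finset.single_le_sum (f := fun r : ℕ => Cr r * (1 + Real.log r)) (fun r _ => ?_)
          (Finset.mem_range.mpr (by omega))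
        apply mul_nonneg (hCr r)
        have := Real.log_natCast_nonneg r
        linarith
      calc (k : ℝ) * (padicValNat r c) * Real.log r
          ≤ (Cr r * Real.log c * (1 + Real.log k) ^ 2) * Real.log r :=
            mul_le_mul_of_nonneg_right h1 hlr
        _ ≤ (Cr r * (1 + Real.log r)) * (Real.log c * (1 + Real.log k) ^ 2) := by
            have h3 : 0 ≤ Cr r * (Real.log c * (1 + Real.log k) ^ 2) :=
              mul_nonneg (hCr r) (by positivity)
            linarith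
        _ ≤ F * (12 * (η * Real.log M₀)) :=
            mul_le_mul h2 hbase (by positivity) hF0
        _ = 12 * F * 1 * (η * Real.log M₀) := by ring
        _ ≤ 12 * F * (r : ℝ) ^ 14 * (η * Real.log M₀) := by
            apply mul_le_mul_of_nonneg_right _ hηM
            exact mul_le_mul_of_nonneg_left hr1 (by positivity))
  have h9 : (12 * E + 12 * F) * (Y : ℝ) ^ 15 * (Real.log k ^ 3 / k) =
      (12 * E + 12 * F) * (Y : ℝ) ^ 15 * η := by rw [hη]
  rw [h9]
  exact hw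

/-- **THEOREM YW** -/
theorem finw (hYY : Stmt_YY) (hA : Stmt_A3) (h3a : Stmt_R3a) (h3b : Stmt_R3b) (h3c : Stmt_R3c)
    (h3d : Stmt_R3d) (h3e : Stmt_R3e) : Stmt_YW := by
  obtain ⟨C, gY⟩ := hYY
  have hmain : ∀ g Y : ℕ, ∃ C' : ℝ, 3 ≤ g → ∀ (a b c m n k t d u : ℕ), 1 ≤ a → 1 ≤ b → 1 ≤ c →
      Nat.Coprime a b → 1 ≤ m → 1 ≤ n → 2 ≤ k →
      (a ^ m + b ^ n = c ^ k ∨ b ^ n + c ^ k = a ^ m ∨ c ^ k + a ^ m = b ^ n) →
      g ∣ m → g ∣ n → (t = a ^ m ∨ t = b ^ n ∨ t = c ^ k) →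
      1 ≤ Y → t = d * u → (∀ r : ℕ, r.Prime → r ∣ d → r ≤ Y) →
      ((max (a ^ m) (max (b ^ n) (c ^ k)) : ℕ) : ℝ) ^ (1 - C' * (Real.log k ^ 3 / k)) ≤
        (u : ℝ) := by
    intro g Y
    by_cases hg : 3 ≤ g
    swap
    · exact ⟨0, fun h => absurd h hg⟩
    obtain ⟨p, hpg, hp⟩ := exists_p hg
    obtain ⟨C₃, hC3, g3⟩ := third hA h3a h3b h3c h3d h3e hp Y
    refine ⟨|C| * (Y : ℝ) ^ 15 * g + C₃, fun _ => ?_⟩
    intro a b c m n k t d u ha hb hc hab hm hn hk heq hgm hgn ht hY hd hdy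
    have ham : 1 ≤ a ^ m := Nat.one_le_pow _ _ ha
    have hbn : 1 ≤ b ^ n := Nat.one_le_pow _ _ hb
    have hck : 1 ≤ c ^ k := Nat.one_le_pow _ _ hc
    have hk1 : (1 : ℝ) ≤ k := by exact_mod_cast (by omega : 1 ≤ k)
    have hlk : 0 ≤ Real.log k := Real.log_nonneg hk1
    set η : ℝ := Real.log k ^ 3 / k with hη
    have hη0 : 0 ≤ η := by positivity
    have hM1 : (1 : ℝ) ≤ ((max (a ^ m) (max (b ^ n) (c ^ k)) : ℕ) : ℝ) := by
      exact_mod_cast (by omega : 1 ≤ max (a ^ m) (max (b ^ n) (c ^ k)))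
    have h12 : t = a ^ m ∨ t = b ^ n →
        ((max (a ^ m) (max (b ^ n) (c ^ k)) : ℕ) : ℝ) ^
          (1 - (|C| * (Y : ℝ) ^ 15 * g + C₃) * η) ≤ (u : ℝ) := by
      intro ht'
      obtain ⟨q, hq, hqg⟩ := Nat.exists_prime_and_dvd (show g ≠ 1 by omega)
      have h1 := gY a b c m n k q Y t d u (q * Real.log k ^ 3 / k) ha hb hc hab hm hn hk heq hq
        (hqg.trans hgm) (hqg.trans hgn) (Or.inl ⟨ht', rfl⟩) hY hd hdy
      refine le_trans ?_ h1
      apply Real.rpow_le_rpow_of_exponent_le hM1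
      have h2 : C * (Y : ℝ) ^ 15 * (q * Real.log k ^ 3 / k) ≤
          (|C| * (Y : ℝ) ^ 15 * g + C₃) * η := by
        have h3 : C * (Y : ℝ) ^ 15 * (q * Real.log k ^ 3 / k) = C * ((Y : ℝ) ^ 15 * (q * η)) := by
          rw [hη]; ring
        rw [h3]
        have h4 : 0 ≤ (Y : ℝ) ^ 15 * (q * η) := by positivity
        have h5 : C * ((Y : ℝ) ^ 15 * (q * η)) ≤ |C| * ((Y : ℝ) ^ 15 * (q * η)) :=
          mul_le_mul_of_nonneg_right (le_abs_self C) h4
        have h6 : (q : ℝ) ≤ g := by exact_mod_cast Nat.le_of_dvd (by omega) hqg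
        have h7 : |C| * ((Y : ℝ) ^ 15 * (q * η)) ≤ |C| * ((Y : ℝ) ^ 15 * (g * η)) := by
          apply mul_le_mul_of_nonneg_left _ (abs_nonneg C)
          apply mul_le_mul_of_nonneg_left _ (by positivity)
          exact mul_le_mul_of_nonneg_right h6 hη0
        have h8 : 0 ≤ C₃ * η := mul_nonneg hC3 hη0
        have h9 : (|C| * (Y : ℝ) ^ 15 * g + C₃) * η = |C| * ((Y : ℝ) ^ 15 * (g * η)) + C₃ * η := by
          ring
        rw [h9]; linarith
      linarith
    rcases ht with ht | ht | ht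
    · exact h12 (Or.inl ht)
    · exact h12 (Or.inr ht)
    · -- the third term
      have hc2 : 2 ≤ c := by
        by_contra hc1
        have hc1 : c = 1 := by omega
        rw [hc1, one_pow] at heq
        have hpp : 2 ≤ p := by
          rcases hp with ⟨h, _⟩ | h
          · exact h.two_le
          · omega
        have hnc : ∀ s t : ℕ, 1 ≤ s → 1 ≤ t → ∀ p : ℕ, 2 ≤ p → s ^ p + 1 ≠ t ^ p := by
          intro s t hs ht p hp h
          have h1 : s < t := by
            apply lt_of_pow_lt_pow_left₀ p (by omega)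
            omega
          have h2 : (s + 1) ^ p ≤ t ^ p := Nat.pow_le_pow_left (by omega) p
          have h3 : s ^ p + p * s ^ (p - 1) ≤ (s + 1) ^ p := by
            obtain ⟨q, rfl⟩ : ∃ q, p = q + 1 := ⟨p - 1, by omega⟩
            have h4 : ∀ q : ℕ, s ^ (q + 1) + (q + 1) * s ^ q ≤ (s + 1) ^ (q + 1) := by
              intro q
              induction q with
              | zero => simp
              | succ q ih =>
                calc s ^ (q + 1 + 1) + (q + 1 + 1) * s ^ (q + 1)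
                    ≤ (s ^ (q + 1) + (q + 1) * s ^ q) * (s + 1) := by
                      have h5 : (s ^ (q + 1) + (q + 1) * s ^ q) * (s + 1) =
                        s ^ (q + 1 + 1) + (q + 1 + 1) * s ^ (q + 1) + (q + 1) * s ^ q := by ring
                      omega
                  _ ≤ (s + 1) ^ (q + 1) * (s + 1) := Nat.mul_le_mul_right _ ih
                  _ = _ := by ring
            simpa using h4 q
          have h4 : 1 ≤ s ^ (p - 1) := Nat.one_le_pow _ _ hs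
          have h5 : 2 ≤ p * s ^ (p - 1) := by nlinarith
          omega
        obtain ⟨m', hm'⟩ := hpg.trans hgm
        obtain ⟨n', hn'⟩ := hpg.trans hgn
        have h1 : a ^ m = (a ^ m') ^ p := by rw [hm', mul_comm, pow_mul]
        have h2 : b ^ n = (b ^ n') ^ p := by rw [hn', mul_comm, pow_mul]
        have h3 : 1 ≤ a ^ m' := Nat.one_le_pow _ _ ha
        have h4 : 1 ≤ b ^ n' := Nat.one_le_pow _ _ hb
        rcases heq with h | h | h
        · omega
        · rw [h1, h2] at h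
          exact hnc _ _ h4 h3 p hpp h
        · rw [h1, h2, add_comm] at h
          exact hnc _ _ h3 h4 p hpp h
      obtain ⟨m', hm'⟩ := hpg.trans hgm
      obtain ⟨n', hn'⟩ := hpg.trans hgn
      have h1 : a ^ m = (a ^ m') ^ p := by rw [hm', mul_comm, pow_mul]
      have h2 : b ^ n = (b ^ n') ^ p := by rw [hn', mul_comm, pow_mul]
      have h3 : 1 ≤ a ^ m' := Nat.one_le_pow _ _ ha
      have h4 : 1 ≤ b ^ n' := Nat.one_le_pow _ _ hb
      have h5 := g3 (a ^ m') (b ^ n') c k d u (max (a ^ m) (max (b ^ n) (c ^ k))) h3 h4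
        (Nat.Coprime.pow _ _ hab) hk hc2 (by
          rw [← h1, ← h2]
          rcases heq with h | h | h
          · exact Or.inl ⟨h, by omega⟩
          · exact Or.inr (Or.inl ⟨h, by omega⟩)
          · exact Or.inr (Or.inr ⟨h, by omega⟩)) hY (by rw [← ht]; exact hd) hdy
      refine le_trans ?_ h5
      apply Real.rpow_le_rpow_of_exponent_le hM1
      have h6 : 0 ≤ |C| * (Y : ℝ) ^ 15 * g * η := by positivity
      have h7 : (|C| * (Y : ℝ) ^ 15 * g + C₃) * η = |C| * (Y : ℝ) ^ 15 * g * η + C₃ * η := by ring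
      rw [h7]
      linarith
  choose C' hC' using hmain
  refine ⟨C, C', ?_⟩
  intro a b c m n k p y t d u η ha hb hc hab hm hn hk heq hpm hpn hη hy hd hdy
  rcases hη with ⟨hp, ht, hη⟩ | ⟨hp, ht, ⟨q, hq, hqn, hqk, hη⟩⟩ | ⟨hp, ht, hη⟩
  · have h1 := gY a b c m n k p y t d u _ ha hb hc hab hm hn hk heq hp hpm hpn (Or.inl ⟨ht, rfl⟩)
      hy hd hdy
    rw [hη]
    exact h1
  · have h1 := gY a b c m n k p y t d u _ ha hb hc hab hm hn hk heq hp hpm hpn
      (Or.inr ⟨ht, q, hq, hqn, hqk, rfl⟩) hy hd hdy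
    rw [hη]
    exact h1
  · rw [hη]
    exact hC' p y hp a b c m n k t d u ha hb hc hab hm hn hk heq hpm hpn ht hy hd hdy

end Pool.Agent.Work.MP_2738db_nt_Y.helper16
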