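import Pool.Agent.Work.MP_2738db_nt_Y_helper16.AllA
import Pool.Agent.Work.MP_2738db_nt_Y_helper16.FINYY
import Pool.Agent.Work.MP_2738db_nt_A_helper43.VAL
import Pool.Agent.Work.MP_2738db_nt_A_helper43.ZER
import Pool.Agent.Work.MP_2738db_nt_A_helper87.NRM
import Pool.Agent.Work.MP_2738db_nt_A_helper76.COR
import Pool.Agent.Work.MP_2738db_nt_A_helper44.TLK
import Pool.Agent.Work.MP_2738db_nt_Y_helper17.ZEG
import Pool.Agent.Work.MP_2738db_nt_Y_helper51.CORR
import Pool.Agent.Work.MP_2738db_nt_Y_helper82.LF3R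
import Pool.Agent.Work.MP_2738db_nt_Y_helper6.LTR
import Pool.Agent.Work.MP_2738db_nt_Y_helper44.ARR
import Pool.Agent.Work.MP_2738db_nt_Y_helper93.GAP2R
import Pool.Agent.Work.MP_2738db_nt_Y_helper51.GLR
import Pool.Agent.Work.MP_2738db_nt_Y_helper31.GAP22R
import Pool.Agent.Work.MP_2738db_nt_Y_helper63.STBR
import Pool.Agent.Work.MP_2738db_nt_Y_helper24.CYC
import Pool.Agent.Work.MP_2738db_nt_Y_helper17.CBR
import Pool.Agent.Work.MP_2738db_nt_Y_helper17.GAU
import Pool.Agent.Work.MP_2738db_nt_Y_helper79.CBR2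
import Pool.Agent.Work.MP_2738db_nt_Y_helper76.TLN

set_option autoImplicit false

/-!
Assembly of all the blocks.
-/

namespace Pool.Agent.Work.MP_2738db_nt_Y.helper16

open Pool.Agent.Work.MP_2738db_nt_Y

theorem all_tlk : Pool.Agent.Work.MP_2738db_nt_A.Stmt_Tlk :=
  Pool.Agent.Work.MP_2738db_nt_A.helper44.stmt_Tlk
    (Pool.Agent.Work.MP_2738db_nt_A.helper76.stmt_Cor
      Pool.Agent.Work.MP_2738db_nt_A.helper43.stmt_Val
      Pool.Agent.Work.MP_2738db_nt_A.helper43.stmt_Zer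
      Pool.Agent.Work.MP_2738db_nt_A.helper87.stmt_NRM)

theorem all_lf3r : Stmt_Lf3r :=
  helper82.lf3r (helper51.corr (helper17.zeg all_zpl helper63.val))

theorem all_arr : Stmt_Arr := helper44.arr helper6.ltr

theorem all_gap2r : Stmt_Gap2r :=
  helper93.gap2r helper23.stmt_ABM helper23.stmt_ABP helper6.ltr all_arr

theorem all_gap22r : Stmt_Gap22r :=
  helper31.gap22r helper76.gfac helper51.glr helper31.sqf helper6.ltr all_arr

theorem all_stbr : Stmt_Stbr :=
  helper63.stbr helper23.stmt_ABM helper23.stmt_ABP helper6.ltr all_arr all_lf3r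

theorem all_cbr (h : Stmt_Tln) : Stmt_Cbr := helper17.cbr all_arr helper6.ltr (helper24.cyc h)

theorem all_cbr2 (h : Stmt_Tln) : Stmt_Cbr2 :=
  helper79.cbr2 helper31.sqf helper76.gfac all_arr helper6.ltr (helper17.gau h)

theorem all_yy (h : Stmt_Tln) : Stmt_YY :=
  finyy all_y1a all_y2a all_gap2r all_gap22r all_stbr (all_cbr h) (all_cbr2 h)

theorem main_yy : Stmt_YY := all_yy (helper76.tln all_tlk)

end Pool.Agent.Work.MP_2738db_nt_Y.helper16
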