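import Pool.Agent.Work.MP_2738db_nt_Y_helper16.Y12A
import Pool.Agent.Work.MP_2738db_nt_Y_helper17.FEW
import Pool.Agent.Work.MP_2738db_nt_Y_helper17.ZE
import Pool.Agent.Work.MP_2738db_nt_Y_helper19.DET
import Pool.Agent.Work.MP_2738db_nt_Y_helper23.ABMP
import Pool.Agent.Work.MP_2738db_nt_Y_helper23.CASB
import Pool.Agent.Work.MP_2738db_nt_Y_helper29.GEN
import Pool.Agent.Work.MP_2738db_nt_Y_helper29.ZPL
import Pool.Agent.Work.MP_2738db_nt_Y_helper31.CASC
import Pool.Agent.Work.MP_2738db_nt_Y_helper31.SQF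
import Pool.Agent.Work.MP_2738db_nt_Y_helper44.GAP22
import Pool.Agent.Work.MP_2738db_nt_Y_helper45.ARQ
import Pool.Agent.Work.MP_2738db_nt_Y_helper50.BEZ
import Pool.Agent.Work.MP_2738db_nt_Y_helper63.STB
import Pool.Agent.Work.MP_2738db_nt_Y_helper63.VAL
import Pool.Agent.Work.MP_2738db_nt_Y_helper76.GFAC
import Pool.Agent.Work.MP_2738db_nt_Y_helper82.CORE
import Pool.Agent.Work.MP_2738db_nt_Y_helper82.LF3
import Pool.Agent.Work.MP_2738db_nt_Y_helper83.TRA
import Pool.Agent.Work.MP_2738db_nt_Y_helper93.ARG2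
import Pool.Agent.Work.MP_2738db_nt_Y_helper94.GAP2

set_option autoImplicit false

/-!
Assembly of the blocks: the Archimedean theorems.
-/

namespace Pool.Agent.Work.MP_2738db_nt_Y.helper16

open Pool.Agent.Work.MP_2738db_nt_Y

theorem all_zpl : Stmt_Zpl := helper29.zpl helper50.bez helper83.tra helper17.few helper29.gen

theorem all_lf3 : Stmt_Lf3 :=
  helper82.lf3 (helper82.core (helper17.ze all_zpl helper63.val) helper19.det)

theorem all_gap2 : Stmt_Gap2 := helper94.gap2 helper23.stmt_ABM helper23.stmt_ABP helper45.arq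

theorem all_gap22 : Stmt_Gap22 :=
  helper44.gap22 helper76.gfac helper93.stmt_Arg helper31.sqf helper45.arq

theorem all_casb : Stmt_Casb := helper23.casb helper23.stmt_ABM helper45.arq

theorem all_casc : Stmt_Casc := helper31.casc helper31.sqf helper45.arq

theorem all_stb : Stmt_Stb :=
  helper63.stb helper23.stmt_ABM helper23.stmt_ABP helper45.arq all_lf3

theorem all_y1a : Stmt_Y1a := y1a all_gap2 all_gap22

theorem all_y2a : Stmt_Y2a := y2a all_gap2 all_casb all_stb all_gap22 all_casc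

end Pool.Agent.Work.MP_2738db_nt_Y.helper16
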