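import Pool.Agent.Work.MP_2738db_nt_A_helper59.MIN
import Pool.Agent.Work.MP_2738db_nt_A_helper59.CNT
import Pool.Agent.Work.MP_2738db_nt_Y_helper59.BGN
import Pool.Agent.Work.MP_2738db_nt_Y_helper96.CYD
import Pool.Agent.Work.MP_2738db_nt_Y_helper87.IDP
import Pool.Agent.Work.MP_2738db_nt_Y_helper87.ID4
import Pool.Agent.Work.MP_2738db_nt_Y_helper50.ID8
import Pool.Agent.Work.MP_2738db_nt_Y_helper76.KUM
import Pool.Agent.Work.MP_2738db_nt_Y_helper82.KUP
import Pool.Agent.Work.MP_2738db_nt_Y_helper63.ARK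
import Pool.Agent.Work.MP_2738db_nt_Y_helper63.A3

set_option autoImplicit false

/-!
Assembly of the blocks on ideals and units of phase 5, and the Archimedean gap `A3`.
-/

namespace Pool.Agent.Work.MP_2738db_nt_Y.helper16

open Pool.Agent.Work.MP_2738db_nt_Y

theorem all_kum : Stmt_Kum := helper76.kum (helper59.stmt_Bgn
  Pool.Agent.Work.MP_2738db_nt_A.helper59.stmt_Min Pool.Agent.Work.MP_2738db_nt_A.helper59.stmt_Cnt)

theorem all_kup : Stmt_Kup := helper82.kup all_kum helper87.idp helper87.id4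

theorem all_kuq : Stmt_Kuq := helper82.kuq all_kum helper50.id8

theorem all_a3 : Stmt_A3 := helper63.a3 helper96.cyd all_kup helper63.ark

end Pool.Agent.Work.MP_2738db_nt_Y.helper16
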