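import Pool.Agent.Work.MP_2738db_nt_Y_helper16.All
import Pool.Agent.Work.MP_2738db_nt_Y_helper16.AllK
import Pool.Agent.Work.MP_2738db_nt_Y_helper16.FINW
import Pool.Agent.Work.MP_2738db_nt_Y_helper76.LTK
import Pool.Agent.Work.MP_2738db_nt_Y_helper76.RG
import Pool.Agent.Work.MP_2738db_nt_Y_helper51.R3A
import Pool.Agent.Work.MP_2738db_nt_Y_helper31.R3B
import Pool.Agent.Work.MP_2738db_nt_Y_helper51.R3C
import Pool.Agent.Work.MP_2738db_nt_Y_helper79.R3D
import Pool.Agent.Work.MP_2738db_nt_Y_helper82.R3E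

set_option autoImplicit false

/-!
Assembly of the blocks of phase 5 (Theorem YW).
-/

namespace Pool.Agent.Work.MP_2738db_nt_Y.helper16

open Pool.Agent.Work.MP_2738db_nt_Y

theorem all_rg : Stmt_Rg := helper76.rg (helper76.tln all_tlk) helper76.ltk

theorem main_yw : Stmt_YW :=
  finw main_yy all_a3
    (helper51.r3a helper96.cyd all_kup all_rg)
    (helper31.r3b helper96.cyd helper87.idp all_kup all_rg)
    (helper51.r3c helper96.cyd all_kup helper76.ltk)
    (helper79.r3d helper96.cyd all_kup all_rg helper76.ltk helper31.sqf helper6.ltr all_arr)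
    (helper82.r3e helper96.cyd all_kuq all_rg)

end Pool.Agent.Work.MP_2738db_nt_Y.helper16
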